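import Pool.Agent.T9lead.LN.Thr

/-!
# Monotone circuits for a monotone function on `D` consecutive slices
-/

set_option autoImplicit false

namespace Pool.Agent.LN

variable {ι : Type*} [Fintype ι] [DecidableEq ι]

/-- The number of ones outside `A`. -/
def wt (A : Finset ι) (x : ι → Bool) : ℕ := (Aᶜ.filter fun i => x i = true).card

/-- The input `x` with ones at `A`. -/
def up (A : Finset ι) (x : ι → Bool) : ι → Bool := fun i => decide (i ∈ A) || x i

omit [Fintype ι] [DecidableEq ι] in
theorem true_mem_base : (fun _ => true) ∈ base ι := Or.inr (Or.inl rfl)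

omit [Fintype ι] [DecidableEq ι] in
theorem false_mem_base : (fun _ => false) ∈ base ι := Or.inr (Or.inr rfl)

omit [Fintype ι] [DecidableEq ι] in
theorem input_mem_base (i : ι) : (fun x : ι → Bool => x i) ∈ base ι := Or.inl ⟨i, rfl⟩

/-- The pseudo-complement of the variable `i` on the slice of weight `m`. -/
def pc (A : Finset ι) (m : ℕ) (i : ι) (x : ι → Bool) : Bool :=
  decide (m ≤ ((Aᶜ.erase i).filter fun j => x j = true).card)

theorem pc_eq {A : Finset ι} {m : ℕ} {i : ι} (hi : i ∉ A) {x : ι → Bool} (hx : wt A x = m) :
    pc A m i x = !x i := by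
  have h : (Aᶜ.erase i).filter (fun j => x j = true) = (Aᶜ.filter fun j => x j = true).erase i := by
    ext j
    simp only [Finset.mem_filter, Finset.mem_erase]
    tauto
  unfold pc
  rw [h]
  unfold wt at hx
  by_cases hxi : x i = true
  · have hmem : i ∈ Aᶜ.filter fun j => x j = true := by simp [hi, hxi]
    have h1 := Finset.card_erase_add_one hmem
    rw [hxi]
    simp only [Bool.not_true, decide_eq_false_iff_not]
    omega
  · have hmem : i ∉ Aᶜ.filter fun j => x j = true := by simp [hxi]
    rw [Finset.erase_eq_of_notMem hmem, hx]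
    simp [hxi]

/-- Replacing the negations by pseudo-complements. -/
theorem dual_rail {s t : ℕ} {B : Set ((ι → Bool) → Bool)} (h : Reach (base ι) s t B)
    (A : Finset ι) (m : ℕ) :
    ∃ s' ≤ 2 * s, ∃ B', Reach (base ι ∪ Set.range (pc A m)) s' 0 B' ∧
      ∀ f ∈ B, ∃ p ∈ B', ∃ q ∈ B', ∀ x, wt A x = m → p x = f (up A x) ∧ q x = !f (up A x) := by
  induction h with
  | refl =>
    refine ⟨0, le_rfl, _, .refl, ?_⟩
    rintro f (⟨i, rfl⟩ | rfl | rfl)
    · by_cases hi : i ∈ A
      · exact ⟨_, Or.inl true_mem_base, _, Or.inl false_mem_base, fun x _ => by simp [up, hi]⟩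
      · exact ⟨_, Or.inl (input_mem_base i), _, Or.inr ⟨i, rfl⟩, fun x hx => by
          simp [up, hi, pc_eq hi hx]⟩
    · exact ⟨_, Or.inl true_mem_base, _, Or.inl false_mem_base, fun x _ => by simp⟩
    · exact ⟨_, Or.inl false_mem_base, _, Or.inl true_mem_base, fun x _ => by simp⟩
  | @and s t B f g _ hf hg ih =>
    obtain ⟨s', hs, B', hB, ih⟩ := ih
    obtain ⟨p, hp, q, hq, h1⟩ := ih f hf
    obtain ⟨p', hp', q', hq', h2⟩ := ih g hg
    refine ⟨s' + 1 + 1, by omega, _,
      (hB.and hp hp').or (Set.mem_insert_of_mem _ hq) (Set.mem_insert_of_mem _ hq'), ?_⟩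
    rintro k (rfl | hk)
    · refine ⟨_, Set.mem_insert_of_mem _ (Set.mem_insert _ _), _, Set.mem_insert _ _,
        fun x hx => ?_⟩
      obtain ⟨a, b⟩ := h1 x hx
      obtain ⟨c, d⟩ := h2 x hx
      simp [a, b, c, d, Bool.not_and]
    · obtain ⟨u, hu, v, hv, h3⟩ := ih k hk
      exact ⟨u, Set.mem_insert_of_mem _ (Set.mem_insert_of_mem _ hu), v,
        Set.mem_insert_of_mem _ (Set.mem_insert_of_mem _ hv), h3⟩
  | @or s t B f g _ hf hg ih =>
    obtain ⟨s', hs, B', hB, ih⟩ := ih
    obtain ⟨p, hp, q, hq, h1⟩ := ih f hf
    obtain ⟨p', hp', q', hq', h2⟩ := ih g hg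
    refine ⟨s' + 1 + 1, by omega, _,
      (hB.or hp hp').and (Set.mem_insert_of_mem _ hq) (Set.mem_insert_of_mem _ hq'), ?_⟩
    rintro k (rfl | hk)
    · refine ⟨_, Set.mem_insert_of_mem _ (Set.mem_insert _ _), _, Set.mem_insert _ _,
        fun x hx => ?_⟩
      obtain ⟨a, b⟩ := h1 x hx
      obtain ⟨c, d⟩ := h2 x hx
      simp [a, b, c, d, Bool.not_or]
    · obtain ⟨u, hu, v, hv, h3⟩ := ih k hk
      exact ⟨u, Set.mem_insert_of_mem _ (Set.mem_insert_of_mem _ hu), v,
        Set.mem_insert_of_mem _ (Set.mem_insert_of_mem _ hv), h3⟩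
  | @not s t B f _ hf ih =>
    obtain ⟨s', hs, B', hB, ih⟩ := ih
    refine ⟨s', by omega, B', hB, ?_⟩
    rintro k (rfl | hk)
    · obtain ⟨p, hp, q, hq, h1⟩ := ih f hf
      exact ⟨q, hq, p, hp, fun x hx => by simp [h1 x hx]⟩
    · exact ih k hk

/-- The function `f` (with ones at `A`) on the slices `m, ..., m + d - 1`, `false` below, `true`
above. -/
def win (f : (ι → Bool) → Bool) (d : ℕ) (A : Finset ι) (m : ℕ) (x : ι → Bool) : Bool :=
  if wt A x < m then false else if wt A x < m + d then f (up A x) else true

theorem comp_wt (A : Finset ι) (k : ℕ) :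
    Comp (base ι) (2 * (Fintype.card ι + 1) ^ 2) 0 {fun x => decide (k ≤ wt A x)} := by
  have h := comp_card (X := ι → Bool) (A := base ι) true_mem_base false_mem_base Aᶜ
    (fun i x => x i) (fun i _ => input_mem_base i) k
  refine h.mono subset_rfl ?_ le_rfl subset_rfl
  have : Aᶜ.card ≤ Fintype.card ι := Finset.card_le_univ _
  gcongr

theorem comp_slice {f : (ι → Bool) → Bool} {s t : ℕ} (hf : Comp (base ι) s t {f})
    (A : Finset ι) (m : ℕ) :
    Comp (base ι) (2 * s + 6 * (Fintype.card ι + 1) ^ 3) 0 {win f 1 A m} := by
  set N := Fintype.card ι with hN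
  obtain ⟨s₁, hs₁, t₁, ht₁, B, hB, hfB⟩ := hf
  obtain ⟨s', hs', B', hB', key⟩ := dual_rail hB A m
  obtain ⟨p, hp, q, hq, hpx⟩ := key f (hfB rfl)
  -- the pseudo-complements
  have h1 : Comp (base ι) (N * (2 * (N + 1) ^ 2)) 0 (Set.range (pc A m)) := by
    have h2 : ∀ i ∈ (Finset.univ : Finset ι), Comp (base ι) (2 * (N + 1) ^ 2) 0 {pc A m i} := by
      intro i _
      have h3 := comp_card (X := ι → Bool) (A := base ι) true_mem_base false_mem_base (Aᶜ.erase i)
        (fun i x => x i) (fun i _ => input_mem_base i) m
      refine h3.mono subset_rfl ?_ le_rfl subset_rfl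
      have : (Aᶜ.erase i).card ≤ N := Finset.card_le_univ _
      gcongr
    have h4 := Comp.biUnion _ h2
    refine h4.mono subset_rfl (by simp [hN]) (by simp) ?_
    rintro _ ⟨i, rfl⟩
    simp only [Set.mem_iUnion, Set.mem_singleton_iff]
    exact ⟨i, Finset.mem_univ _, rfl⟩
  have h5 : Comp (base ι) (N * (2 * (N + 1) ^ 2) + 2 * s) 0 {p} :=
    (h1.trans' (s' := 2 * s) (t' := 0)
      ⟨s', hs'.trans (by omega), 0, le_rfl, B', hB', by simpa using hp⟩)
  have h6 := ((comp_wt A m).and h5).or (comp_wt A (m + 1))
  refine h6.mono subset_rfl ?_ le_rfl ?_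
  · rw [← hN]
    nlinarith [sq_nonneg (N + 1), Nat.zero_le N, pow_pos (Nat.succ_pos N) 2]
  · rw [Set.singleton_subset_iff, Set.mem_singleton_iff]
    funext x
    unfold win
    rcases lt_trichotomy (wt A x) m with h | h | h
    · simp [h]
      omega
    · simp [h, hpx x h]
    · have h7 : ¬ wt A x < m := by omega
      have h8 : ¬ wt A x < m + 1 := by omega
      simp [h7, h8]
      omega

theorem wt_insert {A : Finset ι} {e : ι} (he : e ∉ A) (x : ι → Bool) :
    wt (insert e A) x + (if x e = true then 1 else 0) = wt A x := by
  unfold wt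
  have h : (insert e A)ᶜ = Aᶜ.erase e := by
    ext j
    simp only [Finset.mem_compl, Finset.mem_insert, Finset.mem_erase]
    tauto
  rw [h]
  have h2 : (Aᶜ.erase e).filter (fun j => x j = true) = (Aᶜ.filter fun j => x j = true).erase e := by
    ext j
    simp only [Finset.mem_filter, Finset.mem_erase]
    tauto
  rw [h2]
  split_ifs with hx
  · exact Finset.card_erase_add_one (by simp [he, hx])
  · rw [Finset.erase_eq_of_notMem (by simp [hx])]
    rfl

theorem wt_le (A : Finset ι) (x : ι → Bool) : wt A x ≤ Aᶜ.card := Finset.card_filter_le _ _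

/-- The recursion for the windows. -/
theorem win_succ {f : (ι → Bool) → Bool} (hf : Monotone f) {d : ℕ} (hd : 1 ≤ d) (A : Finset ι)
    (m : ℕ) (x : ι → Bool) :
    win f (d + 1) A m x = (win f 1 A m x &&
      decide (Aᶜ.card - m ≤ (Aᶜ.filter fun e => win f d (insert e A) m x = true).card)) := by
  have hup : ∀ e, x e = true → up (insert e A) x = up A x := by
    intro e he
    funext j
    by_cases hj : j = e
    · subst hj; simp [up, he]
    · simp [up, hj]
  have hle : ∀ e, f (up A x) = true → f (up (insert e A) x) = true := by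
    intro e he
    have h1 : up A x ≤ up (insert e A) x := by
      intro j
      by_cases hj : j ∈ A
      · simp [up, hj]
      · simp only [up, hj, decide_false, Bool.false_or]
        exact le_sup_right
    have := hf h1
    rw [he] at this
    exact top_le_iff.1 this
  rcases lt_trichotomy (wt A x) m with h | h | h
  · -- below the window
    simp [win, h]
  · -- the first slice
    have h1 : ¬ wt A x < m := by omega
    have h2 : wt A x < m + (d + 1) := by omega
    have h3 : wt A x < m + 1 := by omega
    simp only [win, h1, h2, h3, if_true, if_false]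
    rw [Bool.eq_iff_iff]
    simp only [Bool.and_eq_true, decide_eq_true_eq]
    refine ⟨fun hfx => ⟨hfx, ?_⟩, fun hfx => hfx.1⟩
    have h4 : (Aᶜ.filter fun e => ¬ x e = true) ⊆
        Aᶜ.filter fun e => (if wt (insert e A) x < m then false else
          if wt (insert e A) x < m + d then f (up (insert e A) x) else true) = true := by
      intro e he
      rw [Finset.mem_filter] at he ⊢
      refine ⟨he.1, ?_⟩
      have h5 := wt_insert (by simpa using he.1) x
      rw [if_neg he.2] at h5
      have h6 : ¬ wt (insert e A) x < m := by omega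
      have h7 : wt (insert e A) x < m + d := by omega
      simp only [h6, h7, if_true, if_false]
      exact hle e hfx
    have h5 := Finset.card_le_card h4
    have h6 := Finset.card_filter_add_card_filter_not (s := Aᶜ) (fun e => x e = true)
    unfold wt at h
    omega
  · have h1 : ¬ wt A x < m := by omega
    have h3 : ¬ wt A x < m + 1 := by omega
    by_cases h2 : wt A x < m + (d + 1)
    · simp only [win, h1, h2, h3, if_true, if_false, Bool.true_and]
      rw [Bool.eq_iff_iff]
      simp only [decide_eq_true_eq]
      constructor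
      · intro hfx
        have h4 : Aᶜ.filter (fun e => (if wt (insert e A) x < m then false else
          if wt (insert e A) x < m + d then f (up (insert e A) x) else true) = true) = Aᶜ := by
          rw [Finset.filter_eq_self]
          intro e he
          have h5 := wt_insert (by simpa using he) x
          have h6 : ¬ wt (insert e A) x < m := by
            split_ifs at h5 <;> omega
          simp only [h6, if_false]
          split_ifs
          · exact hle e hfx
          · rfl
        rw [h4]
        omega
      · intro hc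
        by_contra hfx
        have h4 : Aᶜ.filter (fun e => (if wt (insert e A) x < m then false else
          if wt (insert e A) x < m + d then f (up (insert e A) x) else true) = true) ⊆
            Aᶜ.filter fun e => ¬ x e = true := by
          intro e he
          rw [Finset.mem_filter] at he ⊢
          refine ⟨he.1, fun hxe => ?_⟩
          have h5 := wt_insert (by simpa using he.1) x
          rw [if_pos hxe] at h5
          have h6 : ¬ wt (insert e A) x < m := by omega
          have h7 : wt (insert e A) x < m + d := by omega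
          have h8 := he.2
          simp only [h6, h7, if_true, if_false] at h8
          rw [hup e hxe] at h8
          exact hfx h8
        have h5 := Finset.card_le_card h4
        have h6 := Finset.card_filter_add_card_filter_not (s := Aᶜ) (fun e => x e = true)
        have h7 := wt_le A x
        unfold wt at h h7
        omega
    · simp only [win, h1, h2, h3, if_false, Bool.true_and]
      symm
      rw [decide_eq_true_eq]
      have h4 : Aᶜ.filter (fun e => (if wt (insert e A) x < m then false else
          if wt (insert e A) x < m + d then f (up (insert e A) x) else true) = true) = Aᶜ := by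
        rw [Finset.filter_eq_self]
        intro e he
        have h5 := wt_insert (by simpa using he) x
        have h6 : ¬ wt (insert e A) x < m := by
          split_ifs at h5 <;> omega
        have h7 : ¬ wt (insert e A) x < m + d := by
          split_ifs at h5 <;> omega
        simp only [h6, h7, if_false]
      rw [h4]
      omega

/-- All windows of `d` slices with `j` fixed variables. -/
theorem comp_win {f : (ι → Bool) → Bool} {s t : ℕ} (hc : Comp (base ι) s t {f}) (hf : Monotone f)
    (m : ℕ) (d : ℕ) : ∀ j : ℕ, Comp (base ι)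
      ((∑ i ∈ Finset.range (d + 1), (Fintype.card ι).choose (j + i)) *
        (2 * s + 10 * (Fintype.card ι + 1) ^ 3)) 0
      (⋃ A ∈ (Finset.univ : Finset ι).powersetCard j, {win f (d + 1) A m}) := by
  set N := Fintype.card ι with hN
  set c := 2 * s + 10 * (N + 1) ^ 3 with hcdef
  induction d with
  | zero =>
    intro j
    have h1 : ∀ A ∈ (Finset.univ : Finset ι).powersetCard j,
        Comp (base ι) c 0 {win f (0 + 1) A m} := by
      intro A _
      have h0 := comp_slice hc A m
      rw [← hN] at h0
      refine h0.mono subset_rfl ?_ le_rfl subset_rfl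
      omega
    have h2 := Comp.biUnion _ h1
    refine h2.mono subset_rfl ?_ (by simp) subset_rfl
    simp [Finset.card_powersetCard, hN]
  | succ d ih =>
    intro j
    have h1 := ih (j + 1)
    set F : Set ((ι → Bool) → Bool) :=
      ⋃ A ∈ (Finset.univ : Finset ι).powersetCard (j + 1), {win f (d + 1) A m} with hF
    have h2 : ∀ A ∈ (Finset.univ : Finset ι).powersetCard j,
        Comp (base ι ∪ F) c 0 {win f (d + 1 + 1) A m} := by
      intro A hA
      rw [Finset.mem_powersetCard] at hA
      have h0 := comp_slice hc A m
      rw [← hN] at h0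
      have h3 := h0.mono (A' := base ι ∪ F) Set.subset_union_left le_rfl le_rfl subset_rfl
      have h4 := comp_card (A := base ι ∪ F) (Or.inl true_mem_base) (Or.inl false_mem_base) Aᶜ
        (fun e x => win f (d + 1) (insert e A) m x) (by
          intro e he
          right
          simp only [hF, Set.mem_iUnion, Set.mem_singleton_iff]
          refine ⟨insert e A, ?_, rfl⟩
          rw [Finset.mem_powersetCard]
          refine ⟨Finset.subset_univ _, ?_⟩
          rw [Finset.card_insert_of_notMem (by simpa using he), hA.2]) (Aᶜ.card - m)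
      refine (h3.and h4).mono subset_rfl ?_ le_rfl ?_
      · have h5 : Aᶜ.card ≤ N := Finset.card_le_univ _
        have h6 : 2 * (Aᶜ.card + 1) ^ 2 ≤ 2 * (N + 1) ^ 2 := by gcongr
        have h7 : 2 * (N + 1) ^ 2 + 1 ≤ 4 * (N + 1) ^ 3 := by
          nlinarith [pow_pos (Nat.succ_pos N) 2, pow_pos (Nat.succ_pos N) 3,
            Nat.pow_le_pow_right (Nat.succ_pos N) (show 2 ≤ 3 by norm_num)]
        omega
      · rw [Set.singleton_subset_iff, Set.mem_singleton_iff]
        funext x
        exact win_succ hf (by omega) A m x
    have h3 := h1.trans' (Comp.biUnion _ h2)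
    refine h3.mono subset_rfl ?_ (by simp) subset_rfl
    rw [Finset.sum_range_succ' _ (d + 1), Finset.card_powersetCard, Finset.card_univ, ← hN,
      add_mul]
    apply Nat.add_le_add
    · apply Nat.mul_le_mul_right
      apply le_of_eq
      apply Finset.sum_congr rfl
      intro i _
      congr 1
      ring
    · simp

end Pool.Agent.LN
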