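import Pool.Agent.T9lead.LN.Main

/-!
# Few NOT gates: the statement for circuits
-/

set_option autoImplicit false

namespace Pool.Agent.LN

open Finset

variable {ι : Type*} [Fintype ι]

/-- Every monotone function which is computed by a circuit `C` is computed by a circuit with at most
`r` NOT gates whose size is at most `40 (N + 1) (size C + (N + 1) ^ 3)` times the number of subsets
with less than `D` elements of the set of the `N` variables, if `N + 1 ≤ D * 2 ^ r`. -/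
theorem few_nots (C : Circuit ι) (hC : Monotone C.eval) (D r : ℕ)
    (hD : Fintype.card ι + 1 ≤ D * 2 ^ r) :
    ∃ C' : Circuit ι, (∀ x, C'.eval x = C.eval x) ∧ C'.nots ≤ r ∧
      C'.size ≤ 40 * (Fintype.card ι + 1) * (C.size + (Fintype.card ι + 1) ^ 3) *
        ∑ i ∈ range D, (Fintype.card ι).choose i := by
  classical
  set N := Fintype.card ι with hN
  have hD0 : 0 < D := by
    rcases Nat.eq_zero_or_pos D with rfl | h
    · simp at hD
    · exact h
  obtain ⟨D, rfl⟩ : ∃ D', D = D' + 1 := ⟨D - 1, by omega⟩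
  -- the least suitable number of NOT gates
  have hex : ∃ r', N + 1 ≤ (D + 1) * 2 ^ r' := ⟨r, hD⟩
  set r' := Nat.find hex with hr'
  have hr'1 : N + 1 ≤ (D + 1) * 2 ^ r' := Nat.find_spec hex
  have hr'2 : r' ≤ r := Nat.find_min' hex hD
  have hpow : 2 ^ r' ≤ 2 * (N + 1) := by
    rcases Nat.eq_zero_or_pos r' with h | h
    · rw [h]; omega
    · obtain ⟨q, hq⟩ : ∃ q, r' = q + 1 := ⟨r' - 1, by omega⟩
      have h1 := Nat.find_min hex (m := q) (by omega)
      rw [hq, pow_succ]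
      have h2 : 2 ^ q ≤ (D + 1) * 2 ^ q := Nat.le_mul_of_pos_left _ (by omega)
      omega
  have h1 := comp_windows (comp_of_circuit C) hC D r' hr'1
  obtain ⟨C', h2, h3, h4⟩ := exists_circuit h1
  refine ⟨C', h4, h3.trans hr'2, h2.trans ?_⟩
  rw [← hN]
  set Wn := ∑ i ∈ range (D + 1), N.choose i with hWn
  have hWn1 : 1 ≤ Wn := by
    have : (N.choose 0) ≤ Wn := Finset.single_le_sum (f := fun i => N.choose i)
      (fun _ _ => Nat.zero_le _) (Finset.mem_range.2 (Nat.succ_pos D))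
    simpa using this
  set s := C.size with hs
  set M := N + 1 with hM
  have hM1 : 1 ≤ M := by omega
  have e1 : 2 ^ r' * (Wn * (2 * s + 10 * M ^ 3)) ≤ 2 * M * (Wn * (2 * s + 10 * M ^ 3)) :=
    Nat.mul_le_mul_right _ hpow
  have hM3 : 1 ≤ M ^ 3 := Nat.one_le_pow _ _ hM1
  have e2 : 2 * M ^ 2 ≤ 2 * M * (Wn * M ^ 3) := by
    have : M * 1 ≤ M * (Wn * M ^ 3 ) := Nat.mul_le_mul_left _ (Nat.mul_pos hWn1 hM3)
    have h5 : M ≤ Wn * M ^ 3 := by
      calc M = 1 * (M * 1) := by ring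
        _ ≤ Wn * (M * M ^ 2) := Nat.mul_le_mul hWn1 (Nat.mul_le_mul_left _ (Nat.one_le_pow _ _ hM1))
        _ = Wn * M ^ 3 := by ring
    calc 2 * M ^ 2 = 2 * M * M := by ring
      _ ≤ 2 * M * (Wn * M ^ 3) := Nat.mul_le_mul_left _ h5
  have e3 : 7 * 2 ^ r' ≤ 14 * M * (Wn * M ^ 3) := by
    calc 7 * 2 ^ r' ≤ 7 * (2 * M) := Nat.mul_le_mul_left _ hpow
      _ = 14 * M * 1 := by ring
      _ ≤ 14 * M * (Wn * M ^ 3) := Nat.mul_le_mul_left _ (Nat.mul_pos hWn1 hM3)
  calc 2 ^ r' * (Wn * (2 * s + 10 * M ^ 3)) + 2 * M ^ 2 + 7 * 2 ^ r'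
      ≤ 2 * M * (Wn * (2 * s + 10 * M ^ 3)) + 2 * M * (Wn * M ^ 3) + 14 * M * (Wn * M ^ 3) := by
        omega
    _ = 4 * (M * s * Wn) + 36 * (M * M ^ 3 * Wn) := by ring
    _ ≤ 40 * (M * s * Wn) + 40 * (M * M ^ 3 * Wn) := by omega
    _ = 40 * M * (s + M ^ 3) * Wn := by ring

end Pool.Agent.LN
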