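import Mathlib

/-!
# Polynomials against powers of two
-/

set_option autoImplicit false

namespace Pool.Agent.LN

open Filter

theorem pow_lt_two_pow (A β k : ℕ) : ∃ u₀ : ℕ, ∀ u ≥ u₀, A * (u + β) ^ k < 2 ^ u := by
  have h := tendsto_pow_const_div_const_pow_of_one_lt k (show (1 : ℝ) < 2 by norm_num)
  have h1 : (0 : ℝ) < 1 / (A * 2 ^ β + 1) := by positivity
  obtain ⟨v₀, hv₀⟩ := eventually_atTop.1 (h.eventually (gt_mem_nhds h1))
  refine ⟨v₀, fun u hu => ?_⟩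
  have h2 := hv₀ (u + β) (by omega)
  have h3 : (0 : ℝ) < 2 ^ (u + β) := by positivity
  have h4 : (0 : ℝ) < A * 2 ^ β + 1 := by positivity
  rw [div_lt_div_iff₀ h3 h4, one_mul] at h2
  have h5 : ((A : ℝ) * (u + β : ℕ) ^ k) * 2 ^ β < 2 ^ u * 2 ^ β := by
    rw [← pow_add]
    have h6 : (0 : ℝ) ≤ ((u + β : ℕ) : ℝ) ^ k := by positivity
    nlinarith
  have h6 : (A : ℝ) * (u + β : ℕ) ^ k < 2 ^ u := lt_of_mul_lt_mul_right h5 (by positivity)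
  exact_mod_cast h6

theorem log_pow_lt (A B e : ℕ) (hB : 1 ≤ B) :
    ∃ y₀ : ℕ, ∀ y ≥ y₀, A * (Nat.log 2 (B * y) + 1) ^ e < y := by
  obtain ⟨u₀, hu₀⟩ := pow_lt_two_pow A (Nat.log 2 B + 2) e
  refine ⟨2 ^ u₀, fun y hy => ?_⟩
  have hy0 : y ≠ 0 := by
    have : 0 < 2 ^ u₀ := by positivity
    omega
  have h1 : u₀ ≤ Nat.log 2 y := Nat.le_log_of_pow_le (by norm_num) hy
  have h2 := hu₀ _ h1
  have h3 : 2 ^ Nat.log 2 y ≤ y := Nat.pow_log_le_self 2 hy0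
  have h4 : Nat.log 2 (B * y) + 1 ≤ Nat.log 2 y + (Nat.log 2 B + 2) := by
    have h5 : B * y < 2 ^ (Nat.log 2 B + 1) * 2 ^ (Nat.log 2 y + 1) := by
      apply Nat.mul_lt_mul''
      · exact Nat.lt_pow_succ_log_self (by norm_num) B
      · exact Nat.lt_pow_succ_log_self (by norm_num) y
    rw [← pow_add] at h5
    have h6 := Nat.log_lt_of_lt_pow (by positivity) h5
    omega
  calc A * (Nat.log 2 (B * y) + 1) ^ e ≤ A * (Nat.log 2 y + (Nat.log 2 B + 2)) ^ e := by gcongr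
    _ < 2 ^ Nat.log 2 y := h2
    _ ≤ y := h3

theorem pow_aux (K b X Y q R : ℕ) : (2 * (K * (b * X) ^ 2 * Y ^ 5)) ^ q * R =
    ((2 * K * b ^ 2) ^ q * R * Y ^ (5 * q)) * X ^ (2 * q) := by
  rw [pow_mul Y 5 q, pow_mul X 2 q,
    show 2 * (K * (b * X) ^ 2 * Y ^ 5) = (2 * K * b ^ 2) * Y ^ 5 * X ^ 2 by ring, mul_pow, mul_pow]
  generalize (2 * K * b ^ 2) ^ q = u
  generalize (Y ^ 5) ^ q = v
  generalize (X ^ 2) ^ q = w
  ring

/-- The asymptotic form of the lower bound. -/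
theorem asym (K c q : ℕ) : ∃ n₀ : ℕ, ∀ n ≥ n₀, ∀ S t L z : ℕ, S ≤ n ^ c →
    L = Nat.log 2 (S + n) + 1 → z = Nat.log 2 L + 1 →
    K * L * z ^ 3 ≤ n / 2 ∧ 2 ≤ n / 2 ∧ K * L ^ 2 * z ^ 5 ≤ n - n / 2 ∧
    ((n - n / 2) ^ 2 ≤ K * L ^ 2 * z ^ 5 * 2 ^ t →
      q * Nat.log 2 (n * (n - 1) / 2) ≤ q * t + (2 * q + 1) * Nat.log 2 (Nat.log 2 n)) := by
  obtain ⟨u₀, hu₀⟩ := pow_lt_two_pow (2 * K * (c + 3) ^ 7) 1 7
  obtain ⟨y₀, hy₀⟩ := log_pow_lt ((2 * K * (c + 3) ^ 2) ^ q * 2 ^ (2 * q + 1)) (c + 3) (5 * q)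
    (by omega)
  refine ⟨2 ^ (u₀ + y₀ + 4), ?_⟩
  intro n hn S t L z hS hL hz
  have hn4 : 2 ^ 4 ≤ n := (Nat.pow_le_pow_right (by norm_num) (by omega)).trans hn
  have hn0 : n ≠ 0 := by omega
  set m := Nat.log 2 n with hm
  have hm1 : u₀ + y₀ + 4 ≤ m := Nat.le_log_of_pow_le (by norm_num) hn
  have hnm : 2 ^ m ≤ n := Nat.pow_log_le_self 2 hn0
  have hnm' : n < 2 ^ (m + 1) := Nat.lt_pow_succ_log_self (by norm_num) n
  -- the bound for `L`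
  have hL1 : L ≤ (c + 3) * (m + 1) := by
    have h1 : S + n < 2 ^ ((c + 2) * (m + 1)) := by
      have h2 : S ≤ 2 ^ ((c + 1) * (m + 1)) := by
        calc S ≤ n ^ c := hS
          _ ≤ n ^ (c + 1) := Nat.pow_le_pow_right (by omega) (by omega)
          _ ≤ (2 ^ (m + 1)) ^ (c + 1) := Nat.pow_le_pow_left hnm'.le _
          _ = 2 ^ ((c + 1) * (m + 1)) := by rw [← pow_mul, mul_comm]
      have h3 : n < 2 ^ ((c + 1) * (m + 1)) := by
        calc n < 2 ^ (m + 1) := hnm'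
          _ ≤ 2 ^ ((c + 1) * (m + 1)) := Nat.pow_le_pow_right (by norm_num)
              (Nat.le_mul_of_pos_left _ (by omega))
      have h4 : 2 ^ ((c + 1) * (m + 1)) + 2 ^ ((c + 1) * (m + 1)) ≤ 2 ^ ((c + 2) * (m + 1)) := by
        calc 2 ^ ((c + 1) * (m + 1)) + 2 ^ ((c + 1) * (m + 1)) = 2 ^ ((c + 1) * (m + 1) + 1) := by
              ring
          _ ≤ 2 ^ ((c + 2) * (m + 1)) := by
              apply Nat.pow_le_pow_right (by norm_num)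
              nlinarith
      omega
    have h2 := Nat.log_lt_of_lt_pow (by omega) h1
    have h3 : (c + 2) * (m + 1) + 1 ≤ (c + 3) * (m + 1) := by nlinarith
    omega
  have hL0 : 1 ≤ L := by omega
  have hz0 : 1 ≤ z := by omega
  have hzL : z ≤ L := by
    have h1 : Nat.log 2 L < L := Nat.log_lt_self 2 (by omega)
    omega
  have hbig : 2 * (K * L ^ 7) < n := by
    have h1 := hu₀ m (by omega)
    calc 2 * (K * L ^ 7) ≤ 2 * (K * ((c + 3) * (m + 1)) ^ 7) := by gcongr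
      _ = 2 * K * (c + 3) ^ 7 * (m + 1) ^ 7 := by ring
      _ < 2 ^ m := h1
      _ ≤ n := hnm
  have hKL : K * L * z ^ 3 ≤ K * L ^ 7 := by
    calc K * L * z ^ 3 ≤ K * L * L ^ 3 := by gcongr
      _ = K * L ^ 4 := by ring
      _ ≤ K * L ^ 7 := Nat.mul_le_mul_left _ (Nat.pow_le_pow_right hL0 (by norm_num))
  have hKL' : K * L ^ 2 * z ^ 5 ≤ K * L ^ 7 := by
    calc K * L ^ 2 * z ^ 5 ≤ K * L ^ 2 * L ^ 5 := by gcongr
      _ = K * L ^ 7 := by ring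
  refine ⟨by omega, by omega, by omega, ?_⟩
  intro h
  have h1 := hy₀ (m + 1) (by omega)
  have h2 : z ≤ Nat.log 2 ((c + 3) * (m + 1)) + 1 := by
    have := Nat.log_mono_right (b := 2) hL1
    omega
  -- (2 K L^2 z^5)^q * 2^(2q+1) < (m+1)^(2q+1)
  have h3 : (2 * (K * L ^ 2 * z ^ 5)) ^ q * 2 ^ (2 * q + 1) < (m + 1) ^ (2 * q + 1) := by
    calc (2 * (K * L ^ 2 * z ^ 5)) ^ q * 2 ^ (2 * q + 1)
        ≤ (2 * (K * ((c + 3) * (m + 1)) ^ 2 * (Nat.log 2 ((c + 3) * (m + 1)) + 1) ^ 5)) ^ q *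
            2 ^ (2 * q + 1) := by
          gcongr
      _ = ((2 * K * (c + 3) ^ 2) ^ q * 2 ^ (2 * q + 1) *
            (Nat.log 2 ((c + 3) * (m + 1)) + 1) ^ (5 * q)) * (m + 1) ^ (2 * q) :=
          pow_aux K (c + 3) (m + 1) (Nat.log 2 ((c + 3) * (m + 1)) + 1) q _
      _ < (m + 1) * (m + 1) ^ (2 * q) := Nat.mul_lt_mul_of_pos_right h1 (by positivity)
      _ = (m + 1) ^ (2 * q + 1) := by ring
  have h4 : (m + 1) ^ (2 * q + 1) ≤ 2 ^ (2 * q + 1) * 2 ^ ((2 * q + 1) * Nat.log 2 m) := by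
    have h5 : m + 1 ≤ 2 ^ (Nat.log 2 m + 1) := Nat.lt_pow_succ_log_self (by norm_num) m
    calc (m + 1) ^ (2 * q + 1) ≤ (2 ^ (Nat.log 2 m + 1)) ^ (2 * q + 1) :=
          Nat.pow_le_pow_left h5 _
      _ = 2 ^ (2 * q + 1) * 2 ^ ((2 * q + 1) * Nat.log 2 m) := by
          rw [← pow_mul, ← pow_add]
          congr 1
          ring
  have h5 : (2 * (K * L ^ 2 * z ^ 5)) ^ q < 2 ^ ((2 * q + 1) * Nat.log 2 m) := by
    have h6 := h3.trans_le h4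
    rw [mul_comm (2 ^ (2 * q + 1))] at h6
    exact Nat.lt_of_mul_lt_mul_right h6
  have h6 : n * (n - 1) / 2 ≤ 2 * (n - n / 2) ^ 2 := by
    have h7 : n ≤ 2 * (n - n / 2) := by omega
    have h8 : n * (n - 1) ≤ n ^ 2 := by
      rw [sq]
      exact Nat.mul_le_mul_left _ (Nat.sub_le _ _)
    have h9 : n ^ 2 ≤ (2 * (n - n / 2)) ^ 2 := Nat.pow_le_pow_left h7 2
    have h10 : (2 * (n - n / 2)) ^ 2 = 2 * (2 * (n - n / 2) ^ 2) := by ring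
    omega
  have h8 : n * (n - 1) / 2 ≠ 0 := by
    have h9 : 2 ≤ n * (n - 1) := by
      calc 2 = 2 * 1 := rfl
        _ ≤ n * (n - 1) := Nat.mul_le_mul (by omega) (by omega)
    omega
  have h7 : 2 ^ (q * Nat.log 2 (n * (n - 1) / 2)) < 2 ^ (q * t + (2 * q + 1) * Nat.log 2 m) := by
    calc 2 ^ (q * Nat.log 2 (n * (n - 1) / 2)) = (2 ^ Nat.log 2 (n * (n - 1) / 2)) ^ q := by
          rw [← pow_mul, mul_comm]
      _ ≤ (n * (n - 1) / 2) ^ q := Nat.pow_le_pow_left (Nat.pow_log_le_self 2 h8) q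
      _ ≤ (2 * (K * L ^ 2 * z ^ 5 * 2 ^ t)) ^ q :=
          Nat.pow_le_pow_left (h6.trans (Nat.mul_le_mul_left _ h)) q
      _ = (2 * (K * L ^ 2 * z ^ 5)) ^ q * 2 ^ (q * t) := by
          rw [show 2 * (K * L ^ 2 * z ^ 5 * 2 ^ t) = 2 * (K * L ^ 2 * z ^ 5) * 2 ^ t by ring, mul_pow,
            ← pow_mul, mul_comm t q]
      _ < 2 ^ ((2 * q + 1) * Nat.log 2 m) * 2 ^ (q * t) :=
          Nat.mul_lt_mul_of_pos_right h5 (by positivity)
      _ = 2 ^ (q * t + (2 * q + 1) * Nat.log 2 m) := by rw [← pow_add]; ring_nf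
  exact ((Nat.pow_lt_pow_iff_right (by norm_num)).1 h7).le

end Pool.Agent.LN
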