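import Pool.Agent.T9lead.LN.Defs

/-!
# Computing sets of Boolean functions, and the translation to circuits
-/

set_option autoImplicit false

namespace Pool.Agent.LN

variable {X Y : Type*}

/-- `Reach A s t B`: starting with the functions in `A`, `s` gates (`t` of them NOT gates) lead to
the set `B` of functions. -/
inductive Reach (A : Set (X → Bool)) : ℕ → ℕ → Set (X → Bool) → Prop
  | refl : Reach A 0 0 A
  | and {s t : ℕ} {B : Set (X → Bool)} {f g : X → Bool} (h : Reach A s t B) (hf : f ∈ B)
      (hg : g ∈ B) : Reach A (s + 1) t (insert (fun x => f x && g x) B)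
  | or {s t : ℕ} {B : Set (X → Bool)} {f g : X → Bool} (h : Reach A s t B) (hf : f ∈ B)
      (hg : g ∈ B) : Reach A (s + 1) t (insert (fun x => f x || g x) B)
  | not {s t : ℕ} {B : Set (X → Bool)} {f : X → Bool} (h : Reach A s t B) (hf : f ∈ B) :
      Reach A (s + 1) (t + 1) (insert (fun x => !f x) B)

theorem Reach.subset {A B : Set (X → Bool)} {s t : ℕ} (h : Reach A s t B) : A ⊆ B := by
  induction h with
  | refl => exact subset_rfl
  | and _ _ _ ih => exact ih.trans (Set.subset_insert _ _)
  | or _ _ _ ih => exact ih.trans (Set.subset_insert _ _)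
  | not _ _ ih => exact ih.trans (Set.subset_insert _ _)

theorem Reach.trans {A B C : Set (X → Bool)} {s t s' t' : ℕ} (h : Reach A s t B)
    (h' : Reach B s' t' C) : Reach A (s + s') (t + t') C := by
  induction h' with
  | refl => simpa using h
  | and _ hf hg ih => exact ih.and hf hg
  | or _ hf hg ih => exact ih.or hf hg
  | not _ hf ih => exact ih.not hf

theorem Reach.union {A B : Set (X → Bool)} {s t : ℕ} (h : Reach A s t B) (U : Set (X → Bool)) :
    Reach (A ∪ U) s t (B ∪ U) := by
  induction h with
  | refl => exact .refl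
  | and _ hf hg ih =>
    rw [Set.insert_union]
    exact ih.and (Or.inl hf) (Or.inl hg)
  | or _ hf hg ih =>
    rw [Set.insert_union]
    exact ih.or (Or.inl hf) (Or.inl hg)
  | not _ hf ih =>
    rw [Set.insert_union]
    exact ih.not (Or.inl hf)

/-- `Comp A s t F`: with at most `s` gates, at most `t` of them NOT gates, all functions in `F` can
be computed from the functions in `A`. -/
def Comp (A : Set (X → Bool)) (s t : ℕ) (F : Set (X → Bool)) : Prop :=
  ∃ s' ≤ s, ∃ t' ≤ t, ∃ B, Reach A s' t' B ∧ F ⊆ B

theorem Comp.mono {A A' F F' : Set (X → Bool)} {s s' t t' : ℕ} (h : Comp A s t F) (hA : A ⊆ A')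
    (hs : s ≤ s') (ht : t ≤ t') (hF : F' ⊆ F) : Comp A' s' t' F' := by
  obtain ⟨a, ha, b, hb, B, h1, h2⟩ := h
  refine ⟨a, ha.trans hs, b, hb.trans ht, B ∪ A', ?_, hF.trans (h2.trans Set.subset_union_left)⟩
  have := h1.union A'
  rwa [Set.union_eq_self_of_subset_left hA] at this

theorem Comp.of_subset {A F : Set (X → Bool)} (h : F ⊆ A) : Comp A 0 0 F :=
  ⟨0, le_rfl, 0, le_rfl, A, .refl, h⟩

/-- First compute `F`, then `G` with the help of `F`. -/
theorem Comp.trans {A F G : Set (X → Bool)} {s s' t t' : ℕ} (h : Comp A s t F)
    (h' : Comp (A ∪ F) s' t' G) : Comp A (s + s') (t + t') (F ∪ G) := by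
  obtain ⟨a, ha, b, hb, B, h1, h2⟩ := h
  obtain ⟨a', ha', b', hb', B', h1', h2'⟩ := h'
  have h3 := h1'.union B
  have h4 : (A ∪ F) ∪ B = B := Set.union_eq_self_of_subset_left (Set.union_subset h1.subset h2)
  rw [h4] at h3
  exact ⟨a + a', add_le_add ha ha', b + b', add_le_add hb hb', B' ∪ B, h1.trans h3,
    Set.union_subset (h2.trans Set.subset_union_right) (h2'.trans Set.subset_union_left)⟩

theorem Comp.trans' {A F G : Set (X → Bool)} {s s' t t' : ℕ} (h : Comp A s t F)
    (h' : Comp (A ∪ F) s' t' G) : Comp A (s + s') (t + t') G :=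
  (h.trans h').mono subset_rfl le_rfl le_rfl Set.subset_union_right

theorem Comp.union {A F G : Set (X → Bool)} {s s' t t' : ℕ} (h : Comp A s t F)
    (h' : Comp A s' t' G) : Comp A (s + s') (t + t') (F ∪ G) :=
  h.trans (h'.mono Set.subset_union_left le_rfl le_rfl subset_rfl)

theorem Comp.biUnion {α : Type*} (I : Finset α) {A : Set (X → Bool)} {s t : ℕ}
    {F : α → Set (X → Bool)} (h : ∀ i ∈ I, Comp A s t (F i)) :
    Comp A (I.card * s) (I.card * t) (⋃ i ∈ I, F i) := by
  classical
  induction I using Finset.induction_on with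
  | empty => simpa using Comp.of_subset (by simp)
  | insert a I ha ih =>
    have h1 := h a (Finset.mem_insert_self _ _)
    have h2 := ih (fun i hi => h i (Finset.mem_insert_of_mem hi))
    have h3 := h1.union h2
    refine h3.mono subset_rfl (by rw [Finset.card_insert_of_notMem ha]; ring_nf; rfl)
      (by rw [Finset.card_insert_of_notMem ha]; ring_nf; rfl) ?_
    simp

theorem comp_and {A : Set (X → Bool)} {f g : X → Bool} (hf : f ∈ A) (hg : g ∈ A) :
    Comp A 1 0 {fun x => f x && g x} :=
  ⟨1, le_rfl, 0, le_rfl, _, Reach.refl.and hf hg, by simp⟩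

theorem comp_or {A : Set (X → Bool)} {f g : X → Bool} (hf : f ∈ A) (hg : g ∈ A) :
    Comp A 1 0 {fun x => f x || g x} :=
  ⟨1, le_rfl, 0, le_rfl, _, Reach.refl.or hf hg, by simp⟩

theorem comp_not {A : Set (X → Bool)} {f : X → Bool} (hf : f ∈ A) :
    Comp A 1 1 {fun x => !f x} :=
  ⟨1, le_rfl, 1, le_rfl, _, Reach.refl.not hf, by simp⟩

theorem Comp.and {A : Set (X → Bool)} {s s' t t' : ℕ} {f g : X → Bool} (hf : Comp A s t {f})
    (hg : Comp A s' t' {g}) : Comp A (s + s' + 1) (t + t') {fun x => f x && g x} :=
  (hf.union hg).trans' (comp_and (by simp) (by simp))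

theorem Comp.or {A : Set (X → Bool)} {s s' t t' : ℕ} {f g : X → Bool} (hf : Comp A s t {f})
    (hg : Comp A s' t' {g}) : Comp A (s + s' + 1) (t + t') {fun x => f x || g x} :=
  (hf.union hg).trans' (comp_or (by simp) (by simp))

/-- Large ORs of available functions. -/
theorem comp_bigOr {α : Type*} (I : Finset α) {A : Set (X → Bool)} {f : α → X → Bool}
    (h0 : (fun _ => false) ∈ A) (h : ∀ i ∈ I, f i ∈ A) :
    Comp A I.card 0 {fun x => decide (∃ i ∈ I, f i x = true)} := by
  classical
  induction I using Finset.induction_on with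
  | empty =>
    refine (Comp.of_subset (A := A) (F := {fun _ => false}) (by simpa using h0)).mono subset_rfl
      (by simp) le_rfl ?_
    simp
  | insert a I ha ih =>
    have h1 : Comp A 0 0 {f a} :=
      Comp.of_subset (by simpa using h a (Finset.mem_insert_self _ _))
    have h2 := ih (fun i hi => h i (Finset.mem_insert_of_mem hi))
    refine (h1.or h2).mono subset_rfl (by rw [Finset.card_insert_of_notMem ha]; omega) (by simp) ?_
    rw [Set.singleton_subset_iff, Set.mem_singleton_iff]
    funext x
    rw [Bool.eq_iff_iff]
    simp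

/-! ### Circuits -/

section circuits

variable {ι : Type*}

/-- The input variables and the constants. -/
def base (ι : Type*) : Set ((ι → Bool) → Bool) :=
  Set.range (fun i => fun x => x i) ∪ {fun _ => true, fun _ => false}

theorem run_append (x : ι → Bool) (gs : List (Gate ι)) (g : Gate ι) :
    run x (gs ++ [g]) = run x gs ++ [g.eval x (run x gs)] := by
  simp [run, List.foldl_append]

theorem run_length (x : ι → Bool) (gs : List (Gate ι)) : (run x gs).length = gs.length := by
  induction gs using List.reverseRecOn with
  | nil => rfl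
  | append_singleton gs g ih => rw [run_append]; simp [ih]

theorem wire_append (x : ι → Bool) (l : List Bool) (b : Bool) (w : Wire ι)
    (hw : ∀ j, w = .gate j → j < l.length) : w.eval x (l ++ [b]) = w.eval x l := by
  cases w with
  | input i => rfl
  | const c => rfl
  | gate j =>
    have := hw j rfl
    simp [Wire.eval, List.getD, List.getElem?_append_left this]

/-- A wire refers to existing gates only. -/
def Wire.Ok (n : ℕ) : Wire ι → Prop
  | .gate j => j < n
  | _ => True

theorem wire_append' (x : ι → Bool) (l : List Bool) (b : Bool) (w : Wire ι)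
    (hw : w.Ok l.length) : w.eval x (l ++ [b]) = w.eval x l := by
  apply wire_append
  rintro j rfl
  exact hw

theorem Wire.Ok.succ {n : ℕ} {w : Wire ι} (h : w.Ok n) : w.Ok (n + 1) := by
  cases w with
  | input i => trivial
  | const b => trivial
  | gate j => exact Nat.lt_succ_of_lt h

/-- The last gate. -/
theorem wire_last (x : ι → Bool) (l : List Bool) (b : Bool) :
    (Wire.gate l.length : Wire ι).eval x (l ++ [b]) = b := by
  simp [Wire.eval, List.getD]

theorem exists_circuit_of_reach {s t : ℕ} {B : Set ((ι → Bool) → Bool)}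
    (h : Reach (base ι) s t B) :
    ∃ gs : List (Gate ι), gs.length = s ∧ gs.countP Gate.isNot = t ∧
      ∀ f ∈ B, ∃ w : Wire ι, w.Ok gs.length ∧ ∀ x, w.eval x (run x gs) = f x := by
  induction h with
  | refl =>
    refine ⟨[], rfl, rfl, ?_⟩
    rintro f (⟨i, rfl⟩ | rfl | rfl)
    · exact ⟨.input i, trivial, fun x => rfl⟩
    · exact ⟨.const true, trivial, fun x => rfl⟩
    · exact ⟨.const false, trivial, fun x => rfl⟩
  | @and s t B f g _ hf hg ih =>
    obtain ⟨gs, h1, h2, h3⟩ := ih
    obtain ⟨u, hu, hu'⟩ := h3 f hf
    obtain ⟨v, hv, hv'⟩ := h3 g hg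
    refine ⟨gs ++ [.and u v], by simp [h1], by simp [h2, Gate.isNot], ?_⟩
    rintro p (rfl | hp)
    · refine ⟨.gate gs.length, by simp [Wire.Ok], fun x => ?_⟩
      rw [run_append]
      have := wire_last x (run x gs) ((Gate.and u v).eval x (run x gs))
      rw [run_length] at this
      rw [this, Gate.eval, hu', hv']
    · obtain ⟨w, hw, hw'⟩ := h3 p hp
      refine ⟨w, by simpa using hw.succ, fun x => ?_⟩
      rw [run_append, wire_append' _ _ _ _ (by rwa [run_length]), hw']
  | @or s t B f g _ hf hg ih =>
    obtain ⟨gs, h1, h2, h3⟩ := ih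
    obtain ⟨u, hu, hu'⟩ := h3 f hf
    obtain ⟨v, hv, hv'⟩ := h3 g hg
    refine ⟨gs ++ [.or u v], by simp [h1], by simp [h2, Gate.isNot], ?_⟩
    rintro p (rfl | hp)
    · refine ⟨.gate gs.length, by simp [Wire.Ok], fun x => ?_⟩
      rw [run_append]
      have := wire_last x (run x gs) ((Gate.or u v).eval x (run x gs))
      rw [run_length] at this
      rw [this, Gate.eval, hu', hv']
    · obtain ⟨w, hw, hw'⟩ := h3 p hp
      refine ⟨w, by simpa using hw.succ, fun x => ?_⟩
      rw [run_append, wire_append' _ _ _ _ (by rwa [run_length]), hw']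
  | @not s t B f _ hf ih =>
    obtain ⟨gs, h1, h2, h3⟩ := ih
    obtain ⟨u, hu, hu'⟩ := h3 f hf
    refine ⟨gs ++ [.not u], by simp [h1], by simp [h2, Gate.isNot], ?_⟩
    rintro p (rfl | hp)
    · refine ⟨.gate gs.length, by simp [Wire.Ok], fun x => ?_⟩
      rw [run_append]
      have := wire_last x (run x gs) ((Gate.not u).eval x (run x gs))
      rw [run_length] at this
      rw [this, Gate.eval, hu']
    · obtain ⟨w, hw, hw'⟩ := h3 p hp
      refine ⟨w, by simpa using hw.succ, fun x => ?_⟩
      rw [run_append, wire_append' _ _ _ _ (by rwa [run_length]), hw']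

theorem exists_circuit {s t : ℕ} {f : (ι → Bool) → Bool} (h : Comp (base ι) s t {f}) :
    ∃ C : Circuit ι, C.size ≤ s ∧ C.nots ≤ t ∧ ∀ x, C.eval x = f x := by
  obtain ⟨s', hs, t', ht, B, h1, h2⟩ := h
  obtain ⟨gs, h3, h4, h5⟩ := exists_circuit_of_reach h1
  obtain ⟨w, _, hw⟩ := h5 f (h2 rfl)
  exact ⟨⟨gs, w⟩, h3.trans_le hs, h4.trans_le ht, hw⟩

/-- The functions computed by the gates of a list of gates. -/
theorem reach_of_gates (gs : List (Gate ι)) :
    ∃ B, Reach (base ι) gs.length (gs.countP Gate.isNot) B ∧
      ∀ w : Wire ι, (fun x => w.eval x (run x gs)) ∈ B := by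
  induction gs using List.reverseRecOn with
  | nil =>
    refine ⟨base ι, .refl, ?_⟩
    intro w
    cases w with
    | input i => exact Or.inl ⟨i, rfl⟩
    | const b => cases b with
      | true => exact Or.inr (Or.inl rfl)
      | false => exact Or.inr (Or.inr rfl)
    | gate j =>
      refine Or.inr (Or.inr ?_)
      funext x
      simp [Wire.eval, run]
  | append_singleton gs g ih =>
    obtain ⟨B, hB, hw⟩ := ih
    -- the value of every wire after the new gate is an old value or the value of the new gate
    have key : ∀ w : Wire ι, (∀ x, w.eval x (run x (gs ++ [g])) = w.eval x (run x gs)) ∨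
        ∀ x, w.eval x (run x (gs ++ [g])) = g.eval x (run x gs) := by
      intro w
      by_cases h : w = .gate gs.length
      · right
        intro x
        rw [h, run_append]
        have := wire_last x (run x gs) (g.eval x (run x gs))
        rwa [run_length] at this
      · left
        intro x
        rw [run_append]
        cases w with
        | input i => rfl
        | const b => rfl
        | gate j =>
          have hj : j ≠ gs.length := fun e => h (by rw [e])
          rcases lt_or_gt_of_ne hj with hj | hj
          · exact wire_append' _ _ _ _ (by rw [run_length]; exact hj)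
          · have h1 : (run x gs ++ [g.eval x (run x gs)]).length ≤ j := by
              simp [run_length]; omega
            have h2 : (run x gs).length ≤ j := by rw [run_length]; omega
            simp [Wire.eval, List.getD, List.getElem?_eq_none h1, List.getElem?_eq_none h2]
    have hbase := hB.subset
    cases g with
    | and a b =>
      refine ⟨insert (fun x => a.eval x (run x gs) && b.eval x (run x gs)) B, ?_, ?_⟩
      · have := hB.and (hw a) (hw b)
        simpa [Gate.isNot] using this
      · intro w
        rcases key w with h | h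
        · right; rw [show (fun x => w.eval x (run x (gs ++ [Gate.and a b]))) =
            fun x => w.eval x (run x gs) from funext h]; exact hw w
        · left; funext x; rw [h]; rfl
    | or a b =>
      refine ⟨insert (fun x => a.eval x (run x gs) || b.eval x (run x gs)) B, ?_, ?_⟩
      · have := hB.or (hw a) (hw b)
        simpa [Gate.isNot] using this
      · intro w
        rcases key w with h | h
        · right; rw [show (fun x => w.eval x (run x (gs ++ [Gate.or a b]))) =
            fun x => w.eval x (run x gs) from funext h]; exact hw w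
        · left; funext x; rw [h]; rfl
    | not a =>
      refine ⟨insert (fun x => !(a.eval x (run x gs))) B, ?_, ?_⟩
      · have := hB.not (hw a)
        simpa [Gate.isNot] using this
      · intro w
        rcases key w with h | h
        · right; rw [show (fun x => w.eval x (run x (gs ++ [Gate.not a]))) =
            fun x => w.eval x (run x gs) from funext h]; exact hw w
        · left; funext x; rw [h]; rfl

theorem comp_of_circuit (C : Circuit ι) : Comp (base ι) C.size C.nots {C.eval} := by
  obtain ⟨B, hB, hw⟩ := reach_of_gates C.gates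
  exact ⟨_, le_rfl, _, le_rfl, B, hB, by rw [Set.singleton_subset_iff]; exact hw C.out⟩

end circuits

end Pool.Agent.LN
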