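import Pool.Agent.T9lead.LN.Defs

/-!
# Circuits that decide whether a graph has a clique of given size
-/

set_option autoImplicit false

namespace Pool.Agent.LN

/-- The pairs `u < v` of vertices. -/
abbrev Pair (n : ℕ) : Type := {p : Fin n × Fin n // p.1 < p.2}

open Classical in
/-- The input variables of a graph: for every pair `u < v`, whether it is an edge. -/
noncomputable def edges {n : ℕ} (G : SimpleGraph (Fin n)) : Pair n → Bool :=
  fun p => decide (G.Adj p.1.1 p.1.2)

/-- The circuit decides whether a graph with `n` vertices has a clique with `k` vertices. -/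
def DecidesClique {n : ℕ} (C : Circuit (Pair n)) (k : ℕ) : Prop :=
  ∀ G : SimpleGraph (Fin n), C.eval (edges G) = true ↔ ∃ T : Finset (Fin n), G.IsNClique k T

end Pool.Agent.LN
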