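import Pool.Agent.T9lead.LN.Dec

/-!
# Graphs as inputs
-/

set_option autoImplicit false

namespace Pool.Agent.LN

open Finset

theorem edges_eq_true {n : ℕ} (G : SimpleGraph (Fin n)) (p : Pair n) :
    edges G p = true ↔ G.Adj p.1.1 p.1.2 := by
  classical
  unfold edges
  exact decide_eq_true_iff

theorem card_pair (n : ℕ) : Fintype.card (Pair n) = n * (n - 1) / 2 := by
  rw [Fintype.card_subtype, ← Finset.sum_range_id, ← Fin.sum_univ_eq_sum_range (fun i => i) n]
  have h : (univ.filter fun p : Fin n × Fin n => p.1 < p.2) =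
      (univ : Finset (Fin n)).biUnion fun j => (Finset.Iio j).image fun i => (i, j) := by
    ext ⟨i, j⟩
    simp
  rw [h, Finset.card_biUnion]
  · apply Finset.sum_congr rfl
    intro j _
    rw [Finset.card_image_of_injective _ (fun a b hab => (Prod.mk.inj hab).1), Fin.card_Iio]
  · intro j _ j' _ hjj'
    rw [Function.onFun, Finset.disjoint_left]
    rintro ⟨a, b⟩ h1 h2
    simp only [Finset.mem_image, Prod.mk.injEq] at h1 h2
    obtain ⟨_, _, _, rfl⟩ := h1
    obtain ⟨_, _, _, h3⟩ := h2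
    exact hjj' h3.symm

/-- The graph of an input. -/
def gr {n : ℕ} (x : Pair n → Bool) : SimpleGraph (Fin n) where
  Adj u v := (∃ h : u < v, x ⟨(u, v), h⟩ = true) ∨ (∃ h : v < u, x ⟨(v, u), h⟩ = true)
  symm := ⟨by intro u v h; rcases h with h | h; exacts [Or.inr h, Or.inl h]⟩
  loopless := ⟨by
    intro u h
    rcases h with ⟨h, _⟩ | ⟨h, _⟩ <;> exact lt_irrefl _ h⟩

theorem edges_gr {n : ℕ} (x : Pair n → Bool) : edges (gr x) = x := by
  funext p
  obtain ⟨⟨u, v⟩, huv⟩ := p
  rw [Bool.eq_iff_iff, edges_eq_true]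
  simp only [gr]
  constructor
  · rintro (⟨_, h⟩ | ⟨h, _⟩)
    · exact h
    · exact absurd h (not_lt.2 (le_of_lt huv))
  · intro h
    exact Or.inl ⟨huv, h⟩

theorem gr_mono {n : ℕ} {x y : Pair n → Bool} (h : x ≤ y) : gr x ≤ gr y := by
  intro u v huv
  rcases huv with ⟨h1, h2⟩ | ⟨h1, h2⟩
  · left
    refine ⟨h1, ?_⟩
    have := h ⟨(u, v), h1⟩
    rw [h2] at this
    exact top_le_iff.1 this
  · right
    refine ⟨h1, ?_⟩
    have := h ⟨(v, u), h1⟩
    rw [h2] at this
    exact top_le_iff.1 this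

end Pool.Agent.LN
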