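import Pool.Agent.T9lead.LN.Graph
import Pool.Agent.T9lead.LN.Asym
import Pool.Agent.T9h35.SG.Main

/-!
# The lower bound for the number of NOT gates (from the theorem of helper34 and helper35)
-/

set_option autoImplicit false

namespace Pool.Agent.LN

open Pool.Agent.T9h34 (graphInput)
open Finset

section conv

variable {ι κ : Type*} (e : ι → κ)

def cw : Wire ι → T9h35.RW.Src κ
  | .input i => .input (e i)
  | .const b => .const (if b then 1 else 0)
  | .gate j => .gate j

noncomputable def cg : Gate ι → T9h35.RW.Gate κ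
  | .and a b => .mono [cw e a, cw e b] (fun l => min (l.getD 0 0) (l.getD 1 0))
  | .or a b => .mono [cw e a, cw e b] (fun l => max (l.getD 0 0) (l.getD 1 0))
  | .not a => .other [(cw e a, 1 / 2)] (fun l => !(l.getD 0 false))

/-- The translation of a circuit. -/
noncomputable def cc (C : Circuit ι) : T9h35.RW.Circuit κ where
  gates := C.gates.map (cg e)
  out := (cw e C.out, 1 / 2)

def bv (b : Bool) : ℝ := if b then 1 else 0

theorem half_le_bv (b : Bool) : (1 / 2 : ℝ) ≤ bv b ↔ b = true := by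
  cases b <;> simp [bv]; norm_num

theorem cw_eval (y : κ → Bool) (l : List Bool) (w : Wire ι) :
    (cw e w).eval y (l.map bv) = bv (w.eval (fun i => y (e i)) l) := by
  cases w with
  | input i => rfl
  | const b => rfl
  | gate j =>
    simp only [cw, T9h35.RW.Src.eval, Wire.eval, List.getD, List.getElem?_map]
    cases l[j]? <;> simp [bv]

theorem test_eval (y : κ → Bool) (l : List Bool) (w : Wire ι) :
    T9h35.RW.Test.eval y (l.map bv) (cw e w, 1 / 2) = w.eval (fun i => y (e i)) l := by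
  unfold T9h35.RW.Test.eval
  rw [cw_eval, Bool.eq_iff_iff, decide_eq_true_eq]
  exact half_le_bv _

theorem cg_eval (y : κ → Bool) (l : List Bool) (g : Gate ι) :
    (cg e g).eval y (l.map bv) = bv (g.eval (fun i => y (e i)) l) := by
  cases g with
  | and a b =>
    simp only [cg, T9h35.RW.Gate.eval, List.map_cons, List.map_nil, cw_eval, Gate.eval]
    cases a.eval (fun i => y (e i)) l <;> cases b.eval (fun i => y (e i)) l <;> simp [bv]
  | or a b =>
    simp only [cg, T9h35.RW.Gate.eval, List.map_cons, List.map_nil, cw_eval, Gate.eval]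
    cases a.eval (fun i => y (e i)) l <;> cases b.eval (fun i => y (e i)) l <;> simp [bv]
  | not a =>
    simp only [cg, T9h35.RW.Gate.eval, List.map_cons, List.map_nil, test_eval, Gate.eval]
    cases a.eval (fun i => y (e i)) l <;> simp [bv]

theorem run_cg (y : κ → Bool) (gs : List (Gate ι)) :
    T9h35.RW.runGates y (gs.map (cg e)) = (run (fun i => y (e i)) gs).map bv := by
  induction gs using List.reverseRecOn with
  | nil => rfl
  | append_singleton gs g ih =>
    have h1 : ∀ (l : List (T9h35.RW.Gate κ)) (g' : T9h35.RW.Gate κ),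
        T9h35.RW.runGates y (l ++ [g']) =
          T9h35.RW.runGates y l ++ [g'.eval y (T9h35.RW.runGates y l)] := by
      intro l g'
      simp [T9h35.RW.runGates, List.foldl_append]
    have h2 : run (fun i => y (e i)) (gs ++ [g]) =
        run (fun i => y (e i)) gs ++ [g.eval (fun i => y (e i)) (run (fun i => y (e i)) gs)] := by
      simp [run, List.foldl_append]
    rw [List.map_append, List.map_cons, List.map_nil, h1, ih, h2, cg_eval, List.map_append,
      List.map_cons, List.map_nil]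

theorem cc_eval (C : Circuit ι) (y : κ → Bool) : (cc e C).eval y = C.eval (fun i => y (e i)) := by
  unfold T9h35.RW.Circuit.eval cc Circuit.eval
  simp only
  rw [run_cg, test_eval]

theorem cc_size (C : Circuit ι) : (cc e C).size = C.size := by
  simp [cc, T9h35.RW.Circuit.size, Circuit.size]

theorem cc_numOther (C : Circuit ι) : (cc e C).numOther = C.nots := by
  unfold T9h35.RW.Circuit.numOther cc Circuit.nots
  simp only [List.countP_map]
  apply List.countP_congr
  intro g _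
  cases g <;> simp [cg, T9h35.RW.Gate.isOther, Gate.isNot]

theorem cc_numTests (C : Circuit ι) : VC34.numTests (cc e C) = C.nots := by
  unfold VC34.numTests cc Circuit.nots
  simp only
  generalize C.gates = l
  induction l with
  | nil => rfl
  | cons g l ih =>
    rw [List.map_cons, List.map_cons, List.sum_cons, ih, List.countP_cons]
    cases g <;> simp [cg, VC34.tests, Gate.isNot, add_comm]

theorem cc_fanIn (C : Circuit ι) : (cc e C).FanIn 2 1 := by
  intro g hg
  obtain ⟨g', _, rfl⟩ := List.mem_map.1 hg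
  have key : ∀ u v : List ℝ, List.Forall₂ (· ≤ ·) u v → ∀ j, u.getD j 0 ≤ v.getD j 0 := by
    intro u v huv
    induction huv with
    | nil => intro j; simp
    | cons h _ ih =>
      intro j
      cases j with
      | zero => simpa using h
      | succ j => simpa using ih j
  cases g' with
  | and a b =>
    refine ⟨by simp, ?_⟩
    intro u v huv
    exact min_le_min (key u v huv 0) (key u v huv 1)
  | or a b =>
    refine ⟨by simp, ?_⟩
    intro u v huv
    exact max_le_max (key u v huv 0) (key u v huv 1)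
  | not a => simp [cg, T9h35.RW.Gate.FanIn]

end conv

theorem edges_eq {n : ℕ} (G : SimpleGraph (Fin n)) :
    (fun p : Pair n => graphInput G p.1) = edges G := by
  classical
  funext p
  rw [Bool.eq_iff_iff, edges_eq_true]
  unfold graphInput
  exact decide_eq_true_iff

theorem lower : ∃ K : ℕ, ∀ (n k : ℕ) (C : Circuit (Pair n)) (s : ℕ), DecidesClique C k → 2 ≤ k →
    k ≤ n → 2 * C.size ≤ s →
    K * (Nat.log 2 s + Nat.log 2 n + 1) *
      (Nat.log 2 (Nat.log 2 s + Nat.log 2 n + 3) + 2) ^ 3 ≤ k →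
    K * (Nat.log 2 s + Nat.log 2 n + 1) ^ 2 *
      (Nat.log 2 (Nat.log 2 s + Nat.log 2 n + 3) + 1) ^ 5 ≤ n - k →
    (n - k) ^ 2 ≤ K * (Nat.log 2 s + Nat.log 2 n + 1) ^ 2 *
      (Nat.log 2 (Nat.log 2 s + Nat.log 2 n + 3) + 1) ^ 5 * 2 ^ C.nots := by
  classical
  obtain ⟨K, hK⟩ := T9h35.SG.average_case_star
  refine ⟨K * 2 ^ 10, ?_⟩
  intro n k C s hC hk hkn hs hlk hlk2
  set l := Nat.log 2 s + Nat.log 2 n + 1 with hl
  have hl3 : Nat.log 2 s + Nat.log 2 n + 3 = l + 2 := by omega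
  rw [hl3] at hlk hlk2 ⊢
  have h9 : l + 2 ≤ 3 * l := by omega
  obtain ⟨M, Ω, _, ν, G, H, _, h1, hν, hν1, hG, hGk, h2⟩ := hK n k s 2 1 le_rfl hk hkn (by
    rw [← hl, one_pow, mul_one]
    refine le_trans ?_ hlk
    apply Nat.mul_le_mul_right
    apply Nat.mul_le_mul_right
    exact Nat.le_mul_of_pos_right _ (by norm_num))
  rw [← hl] at h1
  replace h1 := h1 (by
    calc K * l * (l + 2) * (Nat.log 2 (l + 2) + 1) ^ 5 * 2 ^ (5 * 1)
        ≤ K * l * (3 * l) * (Nat.log 2 (l + 2) + 1) ^ 5 * 2 ^ (5 * 1) := by gcongr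
      _ = K * (3 * 2 ^ 5) * l ^ 2 * (Nat.log 2 (l + 2) + 1) ^ 5 := by ring
      _ ≤ K * 2 ^ 10 * l ^ 2 * (Nat.log 2 (l + 2) + 1) ^ 5 := by
          gcongr
          norm_num
      _ ≤ n - k := hlk2)
  set e : Pair n → Fin n × Fin n := fun p => p.1 with he
  have hnots : C.nots ≤ C.size := List.countP_le_length
  obtain ⟨h3, h4⟩ := h2 1 (cc e C) (cc_fanIn e C) (by
    rw [cc_size, cc_numTests]
    omega)
  rw [cc_numOther] at h3
  -- the circuit is always right
  have h5 : (∑ ω with ((cc e C).eval (graphInput (H ω)) = true ↔ ∃ T, (H ω).IsNClique k T), ν ω)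
      = 1 := by
    rw [← hν1]
    apply Finset.sum_congr _ (fun _ _ => rfl)
    rw [Finset.filter_eq_self]
    intro ω _
    rw [cc_eval, edges_eq]
    exact hC (H ω)
  rw [h5] at h4
  have h6 : ∑ ω, ν ω * (VC34.changes (cc e C) M (G ω) : ℝ) ≤ 2 ^ C.nots - 1 := by
    have h7 : ∀ ω, (VC34.changes (cc e C) M (G ω) : ℝ) ≤ 2 ^ C.nots - 1 := by
      intro ω
      have h8 := h3 ω
      rw [one_mul] at h8
      have h9 : ((VC34.changes (cc e C) M (G ω) + 1 : ℕ) : ℝ) ≤ ((2 ^ C.nots : ℕ) : ℝ) := by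
        exact_mod_cast h8
      push_cast at h9
      linarith
    calc ∑ ω, ν ω * (VC34.changes (cc e C) M (G ω) : ℝ) ≤ ∑ ω, ν ω * ((2 : ℝ) ^ C.nots - 1) :=
          Finset.sum_le_sum fun ω _ => mul_le_mul_of_nonneg_left (h7 ω) (hν ω)
      _ = 2 ^ C.nots - 1 := by rw [← Finset.sum_mul, hν1, one_mul]
  have h7 : (M : ℝ) ≤ 8 * 2 ^ C.nots := by
    have h8 : (1 : ℝ) ≤ 2 ^ C.nots := one_le_pow₀ (by norm_num)
    linarith
  have h8 : M ≤ 8 * 2 ^ C.nots := by exact_mod_cast h7
  calc (n - k) ^ 2 ≤ K * l * (l + 2) * (Nat.log 2 (l + 2) + 1) ^ 5 * 2 ^ (5 * 1) * M := h1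
    _ ≤ K * l * (3 * l) * (Nat.log 2 (l + 2) + 1) ^ 5 * 2 ^ (5 * 1) * (8 * 2 ^ C.nots) := by
        gcongr
    _ = (K * (3 * 2 ^ 8)) * l ^ 2 * (Nat.log 2 (l + 2) + 1) ^ 5 * 2 ^ C.nots := by ring
    _ ≤ (K * 2 ^ 10) * l ^ 2 * (Nat.log 2 (l + 2) + 1) ^ 5 * 2 ^ C.nots := by
        gcongr
        norm_num

/-- The lower bound for the number of NOT gates of a circuit which decides `k`-clique. -/
theorem lower' : ∃ K : ℕ, ∀ (n k : ℕ) (C : Circuit (Pair n)), DecidesClique C k → 2 ≤ k →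
    k ≤ n → ∀ L z : ℕ, L = Nat.log 2 (C.size + n) + 1 → z = Nat.log 2 L + 1 →
    K * L * z ^ 3 ≤ k → K * L ^ 2 * z ^ 5 ≤ n - k →
    (n - k) ^ 2 ≤ K * L ^ 2 * z ^ 5 * 2 ^ C.nots := by
  obtain ⟨K, hK⟩ := lower
  refine ⟨K * (3 * 5 ^ 3) + K * (3 ^ 2 * 4 ^ 5), ?_⟩
  intro n k C hC hk hkn L z hL hz hlk hlk2
  set l := Nat.log 2 (2 * C.size) + Nat.log 2 n + 1 with hl
  have h1 : Nat.log 2 (2 * C.size) ≤ L := by
    rcases Nat.eq_zero_or_pos C.size with h | h
    · rw [h]; simp
    · rw [mul_comm, Nat.log_mul_base (by norm_num) (by omega), hL]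
      have := Nat.log_mono_right (b := 2) (show C.size ≤ C.size + n by omega)
      omega
  have h2 : Nat.log 2 n + 1 ≤ L := by
    have := Nat.log_mono_right (b := 2) (show n ≤ C.size + n by omega)
    omega
  have hL1 : 1 ≤ L := by omega
  have h3 : l ≤ 2 * L := by omega
  have hl3 : Nat.log 2 (2 * C.size) + Nat.log 2 n + 3 = l + 2 := by omega
  have h4 : Nat.log 2 (l + 2) ≤ Nat.log 2 L + 2 := by
    have h5 : l + 2 ≤ 4 * L := by omega
    calc Nat.log 2 (l + 2) ≤ Nat.log 2 (4 * L) := Nat.log_mono_right h5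
      _ = Nat.log 2 L + 2 := by
          rw [show 4 * L = L * 2 * 2 by ring, Nat.log_mul_base (by norm_num) (by omega),
            Nat.log_mul_base (by norm_num) (by omega)]
  have h5 := hK n k C (2 * C.size) hC hk hkn le_rfl
  rw [hl3, ← hl] at h5
  have hz1 : 1 ≤ z := by omega
  have h7 : K * l ^ 2 * (Nat.log 2 (l + 2) + 1) ^ 5 ≤
      (K * (3 * 5 ^ 3) + K * (3 ^ 2 * 4 ^ 5)) * L ^ 2 * z ^ 5 := by
    calc K * l ^ 2 * (Nat.log 2 (l + 2) + 1) ^ 5 ≤ K * (3 * L) ^ 2 * (4 * z) ^ 5 := by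
          gcongr <;> omega
      _ = K * (3 ^ 2 * 4 ^ 5) * L ^ 2 * z ^ 5 := by ring
      _ ≤ (K * (3 * 5 ^ 3) + K * (3 ^ 2 * 4 ^ 5)) * L ^ 2 * z ^ 5 := by
          gcongr
          omega
  have h6 := h5 (by
    calc K * l * (Nat.log 2 (l + 2) + 2) ^ 3 ≤ K * (3 * L) * (5 * z) ^ 3 := by
          gcongr <;> omega
      _ = K * (3 * 5 ^ 3) * L * z ^ 3 := by ring
      _ ≤ (K * (3 * 5 ^ 3) + K * (3 ^ 2 * 4 ^ 5)) * L * z ^ 3 := by
          gcongr
          omega
      _ ≤ k := hlk) (h7.trans hlk2)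
  exact h6.trans (Nat.mul_le_mul_right _ h7)

/-- Polynomial size needs `log N - (2 + 1 / q) log log n` NOT gates. -/
theorem need_nots (c q : ℕ) : ∃ n₀ : ℕ, ∀ n ≥ n₀, ∀ C : Circuit (Pair n),
    DecidesClique C (n / 2) → C.size ≤ n ^ c →
    q * Nat.log 2 (n * (n - 1) / 2) ≤ q * C.nots + (2 * q + 1) * Nat.log 2 (Nat.log 2 n) := by
  obtain ⟨K, hK⟩ := lower'
  obtain ⟨n₀, hn₀⟩ := asym K c q
  refine ⟨n₀, fun n hn C hC hs => ?_⟩
  obtain ⟨h1, h2, h3, h4⟩ := hn₀ n hn C.size C.nots _ _ hs rfl rfl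
  exact h4 (hK n (n / 2) C hC h2 (Nat.div_le_self _ _) _ _ rfl rfl h1 h3)

end Pool.Agent.LN
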