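import Pool.Agent.T9lead.LN.Win

/-!
# Few NOT gates suffice for monotone functions with small circuits
-/

set_option autoImplicit false

namespace Pool.Agent.LN

variable {ι : Type*} [Fintype ι] [DecidableEq ι]

theorem comp_windows {f : (ι → Bool) → Bool} {s t : ℕ} (hc : Comp (base ι) s t {f})
    (hf : Monotone f) (D r : ℕ) (hD : Fintype.card ι + 1 ≤ (D + 1) * 2 ^ r) :
    Comp (base ι) (2 ^ r * ((∑ i ∈ Finset.range (D + 1), (Fintype.card ι).choose i) *
        (2 * s + 10 * (Fintype.card ι + 1) ^ 3)) + 2 * (Fintype.card ι + 1) ^ 2 + 7 * 2 ^ r) r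
      {f} := by
  set N := Fintype.card ι with hN
  set Q := (∑ i ∈ Finset.range (D + 1), N.choose i) * (2 * s + 10 * (N + 1) ^ 3) with hQ
  -- the windows
  have h1 : ∀ i ∈ Finset.range (2 ^ r), Comp (base ι) Q 0 {win f (D + 1) ∅ (i * (D + 1))} := by
    intro i _
    have h2 := comp_win hc hf (i * (D + 1)) D 0
    refine h2.mono subset_rfl ?_ le_rfl ?_
    · simp [hQ, hN]
    · simp
  have h2 := Comp.biUnion _ h1
  rw [Finset.card_range, Nat.mul_zero] at h2
  set F₁ : Set ((ι → Bool) → Bool) :=
    ⋃ i ∈ Finset.range (2 ^ r), {win f (D + 1) ∅ (i * (D + 1))} with hF₁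
  -- the thresholds
  set gs : List ((ι → Bool) → Bool) := (Finset.univ : Finset ι).toList.map fun i x => x i with hgs
  have hgs' : ∀ x : ι → Bool, gs.countP (fun g => g x) = wt ∅ x := by
    intro x
    rw [hgs, List.countP_map, List.countP_eq_length_filter,
      ← List.toFinset_card_of_nodup ((Finset.nodup_toList _).filter _)]
    unfold wt
    congr 1
    ext i
    simp
  have h3 : Comp (base ι) (2 * (N + 1) ^ 2) 0 (Set.range fun k => Th k gs) := by
    have h4 := comp_Th (A := base ι) true_mem_base false_mem_base gs (by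
      intro g hg
      obtain ⟨i, _, rfl⟩ := List.mem_map.1 hg
      exact input_mem_base i)
    refine h4.mono subset_rfl ?_ le_rfl subset_rfl
    simp [hgs, hN]
  set F₂ : Set ((ι → Bool) → Bool) := Set.range fun k => Th k gs with hF₂
  set b : ℕ → (ι → Bool) → Bool := fun i => Th (i * (D + 1)) gs with hb
  have hbx : ∀ i x, b i x = decide (i * (D + 1) ≤ wt ∅ x) := by
    intro i x
    simp only [hb, Th, hgs']
  have h4 := comp_neg_sorted r (base ι ∪ F₂) b (Or.inl false_mem_base)
    (fun i => Or.inr ⟨_, rfl⟩) (by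
      intro i x h
      rw [hbx, decide_eq_true_eq] at h ⊢
      refine le_trans ?_ h
      apply Nat.mul_le_mul_right
      omega)
  set F₃ : Set ((ι → Bool) → Bool) := {f | ∃ i, 1 ≤ i ∧ i < 2 ^ r ∧ f = fun x => !b i x} with hF₃
  -- everything
  have h5 := h2.union (h3.trans' h4)
  set U : Set ((ι → Bool) → Bool) := base ι ∪ (F₁ ∪ F₃) with hU
  set g : ℕ → (ι → Bool) → Bool := fun i x =>
    win f (D + 1) ∅ (i * (D + 1)) x && (if i + 1 < 2 ^ r then !b (i + 1) x else true) with hg
  have h6 : ∀ i ∈ Finset.range (2 ^ r), Comp U 1 0 {g i} := by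
    intro i hi
    apply comp_and
    · right; left
      simp only [hF₁, Set.mem_iUnion, Set.mem_singleton_iff]
      exact ⟨i, hi, rfl⟩
    · by_cases h : i + 1 < 2 ^ r
      · right; right
        refine ⟨i + 1, by omega, h, ?_⟩
        simp [h]
      · simp only [h, if_false]
        exact Or.inl true_mem_base
  have h7 := Comp.biUnion _ h6
  rw [Finset.card_range, Nat.mul_zero, Nat.mul_one] at h7
  have h8 := comp_bigOr (Finset.range (2 ^ r)) (A := U ∪ ⋃ i ∈ Finset.range (2 ^ r), {g i})
    (f := g) (Or.inl (Or.inl false_mem_base)) (by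
      intro i hi
      right
      simp only [Set.mem_iUnion, Set.mem_singleton_iff]
      exact ⟨i, hi, rfl⟩)
  rw [Finset.card_range] at h8
  have h9 := h5.trans' (h7.trans' h8)
  refine h9.mono subset_rfl (by omega) (by omega) ?_
  rw [Set.singleton_subset_iff, Set.mem_singleton_iff]
  funext x
  symm
  -- the correct window
  have hup : up ∅ x = x := by
    funext i
    simp [up]
  have hwN : wt ∅ x ≤ N := by
    have := wt_le ∅ x
    simpa [hN] using this
  set w := wt ∅ x with hw
  rw [Bool.eq_iff_iff, decide_eq_true_eq]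
  constructor
  · rintro ⟨i, hi, h⟩
    rw [Finset.mem_range] at hi
    simp only [hg, Bool.and_eq_true] at h
    obtain ⟨h10, h11⟩ := h
    simp only [win, ← hw, hup] at h10
    split_ifs at h10 with h12 h13
    · exact h10
    · exfalso
      have h14 : (i + 1) * (D + 1) ≤ w := by
        rw [add_mul]
        omega
      by_cases h15 : i + 1 < 2 ^ r
      · rw [if_pos h15, hbx, ← hw] at h11
        simp [h14] at h11
      · have h16 : 2 ^ r ≤ i + 1 := by omega
        have h17 : (D + 1) * 2 ^ r ≤ (i + 1) * (D + 1) := by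
          rw [mul_comm (i + 1)]
          exact Nat.mul_le_mul_left _ h16
        omega
  · intro hfx
    have hdiv : w / (D + 1) < 2 ^ r := by
      rw [Nat.div_lt_iff_lt_mul (by omega), mul_comm]
      omega
    refine ⟨w / (D + 1), Finset.mem_range.2 hdiv, ?_⟩
    have h10 : w / (D + 1) * (D + 1) ≤ w := Nat.div_mul_le_self _ _
    have h11 : w < w / (D + 1) * (D + 1) + (D + 1) := Nat.lt_div_mul_add (by omega)
    simp only [hg, Bool.and_eq_true]
    constructor
    · have h12 : ¬ w < w / (D + 1) * (D + 1) := by omega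
      simp [win, ← hw, h12, h11, hup, hfx]
    · split_ifs with h12
      · rw [hbx, ← hw]
        have : ¬ (w / (D + 1) + 1) * (D + 1) ≤ w := by
          rw [add_mul, one_mul]
          omega
        simp [this]
      · rfl

end Pool.Agent.LN
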