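import Pool.Agent.T9lead.LN.Comp

/-!
# Threshold functions, slice circuits (Berkowitz) and the negation of sorted bits (Markov)
-/

set_option autoImplicit false

namespace Pool.Agent.LN

variable {X : Type*}

/-- `k ≤` number of the functions in the list with value `true`. -/
def Th (k : ℕ) (gs : List (X → Bool)) (x : X) : Bool := decide (k ≤ gs.countP (fun g => g x))

theorem comp_Th {A : Set (X → Bool)} (ht : (fun _ => true) ∈ A) (hf : (fun _ => false) ∈ A)
    (gs : List (X → Bool)) (hgs : ∀ g ∈ gs, g ∈ A) :
    Comp A (2 * (gs.length + 1) ^ 2) 0 (Set.range fun k => Th k gs) := by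
  induction gs with
  | nil =>
    refine (Comp.of_subset ?_).mono subset_rfl (Nat.zero_le _) le_rfl subset_rfl
    rintro _ ⟨k, rfl⟩
    rcases Nat.eq_zero_or_pos k with rfl | hk
    · have : Th 0 ([] : List (X → Bool)) = fun _ => true := by
        funext x; simp [Th]
      simpa [this] using ht
    · have : Th k ([] : List (X → Bool)) = fun _ => false := by
        funext x; simp [Th]; omega
      simpa [this] using hf
  | cons g gs ih =>
    have ih' := ih (fun g hg => hgs g (List.mem_cons_of_mem _ hg))
    have hg : g ∈ A := hgs g List.mem_cons_self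
    set F : Set (X → Bool) := Set.range fun k => Th k gs with hF
    -- the new functions
    have key : ∀ k ∈ Finset.range (gs.length + 1), Comp (A ∪ F) 2 0 {Th (k + 1) (g :: gs)} := by
      intro k _
      have h1 : Comp (A ∪ F) 1 0 {fun x => Th k gs x && g x} :=
        comp_and (Or.inr ⟨k, rfl⟩) (Or.inl hg)
      have h2 : Comp (A ∪ F) 0 0 {Th (k + 1) gs} :=
        Comp.of_subset (by simpa using Or.inr ⟨k + 1, rfl⟩)
      refine (h1.or h2).mono subset_rfl (by norm_num) le_rfl ?_
      rw [Set.singleton_subset_iff, Set.mem_singleton_iff]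
      funext x
      rw [Bool.eq_iff_iff]
      by_cases h : g x = true
      · simp [Th, h]; omega
      · simp [Th, h]
    have h3 := Comp.biUnion _ key
    have h4 := ih'.trans' h3
    have h5 : Comp A 0 0 ({fun _ => true, fun _ => false} : Set (X → Bool)) := by
      apply Comp.of_subset
      rintro _ (rfl | rfl)
      · exact ht
      · exact hf
    refine (h4.union h5).mono subset_rfl ?_ (by simp) ?_
    · simp only [Finset.card_range, List.length_cons]
      nlinarith
    · rintro _ ⟨k, rfl⟩
      rcases Nat.eq_zero_or_pos k with rfl | hk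
      · right; left
        funext x; simp [Th]
      · by_cases hk2 : k ≤ gs.length + 1
        · left
          simp only [Set.mem_iUnion, Set.mem_singleton_iff]
          refine ⟨k - 1, Finset.mem_range.2 (by omega), ?_⟩
          rw [show k - 1 + 1 = k by omega]
        · right; right
          funext x
          have : (g :: gs).countP (fun g => g x) ≤ gs.length + 1 := by
            simpa using List.countP_le_length (p := fun g => g x) (l := g :: gs)
          simp only [Th, decide_eq_false_iff_not]
          omega

/-- Threshold functions of a family indexed by a finite set. -/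
theorem comp_card {α : Type*} {A : Set (X → Bool)} (ht : (fun _ => true) ∈ A)
    (hf : (fun _ => false) ∈ A) (I : Finset α) (g : α → X → Bool) (hg : ∀ i ∈ I, g i ∈ A) (k : ℕ) :
    Comp A (2 * (I.card + 1) ^ 2) 0 {fun x => decide (k ≤ (I.filter fun i => g i x = true).card)} := by
  classical
  have h := comp_Th ht hf (I.toList.map g) (by
    intro f hf'
    obtain ⟨i, hi, rfl⟩ := List.mem_map.1 hf'
    exact hg i (Finset.mem_toList.1 hi))
  refine h.mono subset_rfl (by simp) le_rfl ?_
  rw [Set.singleton_subset_iff]
  refine ⟨k, ?_⟩
  funext x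
  simp only [Th]
  congr 2
  rw [List.countP_map, List.countP_eq_length_filter,
    ← List.toFinset_card_of_nodup ((Finset.nodup_toList I).filter _)]
  congr 1
  ext i
  simp

/-! ### Negating sorted bits -/

theorem comp_neg_sorted (r : ℕ) : ∀ (A : Set (X → Bool)) (b : ℕ → X → Bool),
    (fun _ => false) ∈ A → (∀ i, b i ∈ A) → (∀ i x, b (i + 1) x = true → b i x = true) →
    Comp A (5 * 2 ^ r) r {f | ∃ i, 1 ≤ i ∧ i < 2 ^ r ∧ f = fun x => !b i x} := by
  induction r with
  | zero =>
    intro A b _ _ _
    refine (Comp.of_subset (F := ∅) (Set.empty_subset _)).mono subset_rfl (Nat.zero_le _) le_rfl ?_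
    rintro f ⟨i, h1, h2, _⟩
    simp at h2
    omega
  | succ r ih =>
    intro A b h0 hb hs
    have hs' : ∀ i j x, i ≤ j → b j x = true → b i x = true := by
      intro i j x hij
      induction hij with
      | refl => exact id
      | step _ ih' => exact fun h => ih' (hs _ _ h)
    set c : X → Bool := fun x => !b (2 ^ r) x with hc
    have h1 : Comp A 1 1 {c} := comp_not (hb _)
    -- the multiplexed bits
    set a : ℕ → X → Bool := fun i x =>
      if i < 2 ^ r then (b i x && c x) || b (i + 2 ^ r) x else false with ha
    have h2 : Comp (A ∪ {c}) (2 ^ r * 2) 0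
        (⋃ i ∈ Finset.range (2 ^ r), {a i}) := by
      have h3 : ∀ i ∈ Finset.range (2 ^ r), Comp (A ∪ {c}) 2 0 {a i} := by
        intro i hi
        have h4 : Comp (A ∪ {c}) 1 0 {fun x => b i x && c x} :=
          comp_and (Or.inl (hb _)) (Or.inr rfl)
        have h5 : Comp (A ∪ {c}) 0 0 {b (i + 2 ^ r)} :=
          Comp.of_subset (by simpa using Or.inr (hb _))
        refine (h4.or h5).mono subset_rfl (by norm_num) le_rfl ?_
        rw [Set.singleton_subset_iff, Set.mem_singleton_iff]
        funext x
        simp [ha, Finset.mem_range.1 hi]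
      have := Comp.biUnion _ h3
      simpa using this
    -- the negations of the multiplexed bits
    set U : Set (X → Bool) := A ∪ {c} ∪ (⋃ i ∈ Finset.range (2 ^ r), {a i}) with hU
    have haU : ∀ i, i < 2 ^ r → a i ∈ U := by
      intro i hi
      right
      simp only [Set.mem_iUnion, Set.mem_singleton_iff]
      exact ⟨i, Finset.mem_range.2 hi, rfl⟩
    have h6 : Comp U (5 * 2 ^ r) r {f | ∃ i, 1 ≤ i ∧ i < 2 ^ r ∧ f = fun x => !a i x} := by
      apply ih
      · exact Or.inl (Or.inl h0)
      · intro i
        by_cases hi : i < 2 ^ r
        · exact haU i hi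
        · have : a i = fun _ => false := by
            funext x
            simp [ha, hi]
          rw [this]
          exact Or.inl (Or.inl h0)
      · intro i x h
        by_cases hi : i + 1 < 2 ^ r
        · have hi' : i < 2 ^ r := by omega
          simp only [ha, hi, hi', if_true, Bool.or_eq_true, Bool.and_eq_true] at h ⊢
          rcases h with h | h
          · exact Or.inl ⟨hs _ _ h.1, h.2⟩
          · right
            exact hs' _ _ _ (by omega) h
        · simp [ha, hi] at h
    -- the negations of the bits
    set V : Set (X → Bool) := U ∪ {f | ∃ i, 1 ≤ i ∧ i < 2 ^ r ∧ f = fun x => !a i x} with hV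
    have hcV : c ∈ V := Or.inl (Or.inl (Or.inr rfl))
    have h7 : ∀ i ∈ Finset.Ico 1 (2 ^ r), Comp V 2 0 ({fun x => !b i x, fun x => !b (i + 2 ^ r) x} :
        Set (X → Bool)) := by
      intro i hi
      obtain ⟨hi1, hi2⟩ := Finset.mem_Ico.1 hi
      have hna : (fun x => !a i x) ∈ V := Or.inr ⟨i, hi1, hi2, rfl⟩
      have h8 := (comp_and hcV hna).union (comp_or hcV hna)
      refine h8.mono subset_rfl le_rfl le_rfl ?_
      rintro f (rfl | rfl)
      · left
        rw [Set.mem_singleton_iff]
        funext x
        rw [Bool.eq_iff_iff]
        have e1 := hs' i (2 ^ r) x hi2.le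
        have e2 := hs' (2 ^ r) (i + 2 ^ r) x (by omega)
        simp only [hc, ha, hi2, if_true, Bool.and_eq_true, Bool.not_eq_true', Bool.or_eq_false_iff,
          Bool.and_eq_false_imp]
        constructor
        · intro h
          have h9 : b (2 ^ r) x = false := by
            by_contra h9
            rw [e1 (by simpa using h9)] at h
            exact absurd h (by simp)
          refine ⟨h9, fun h10 => absurd h10 (by simp [h]), ?_⟩
          by_contra h10
          rw [e2 (by simpa using h10)] at h9
          exact absurd h9 (by simp)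
        · rintro ⟨h9, h10, h11⟩
          by_contra h12
          have := h10 (by simpa using h12)
          rw [h9] at this
          exact absurd this (by simp)
      · right
        rw [Set.mem_singleton_iff]
        funext x
        rw [Bool.eq_iff_iff]
        have e1 := hs' i (2 ^ r) x hi2.le
        have e2 := hs' (2 ^ r) (i + 2 ^ r) x (by omega)
        simp only [hc, ha, hi2, if_true, Bool.or_eq_true, Bool.not_eq_true', Bool.or_eq_false_iff,
          Bool.and_eq_false_imp]
        constructor
        · intro h
          by_cases h9 : b (2 ^ r) x = true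
          · exact Or.inr ⟨fun _ => by simp [h9], h⟩
          · exact Or.inl (by simpa using h9)
        · rintro (h9 | h9)
          · by_contra h10
            rw [e2 (by simpa using h10)] at h9
            exact absurd h9 (by simp)
          · exact h9.2
    have h8 := Comp.biUnion _ h7
    have h9 : Comp A (1 + (2 ^ r * 2 + (5 * 2 ^ r + (2 ^ r - 1) * 2))) (1 + (0 + (r + 0)))
        ({c} ∪ (⋃ i ∈ Finset.Ico 1 (2 ^ r), {fun x => !b i x, fun x => !b (i + 2 ^ r) x})) := by
      refine h1.trans ((h2.trans' (h6.trans' ?_)))
      refine h8.mono subset_rfl (by simp) (by simp) subset_rfl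
    refine h9.mono subset_rfl ?_ (by omega) ?_
    · have : 1 ≤ 2 ^ r := Nat.one_le_two_pow
      rw [pow_succ]
      omega
    · rintro f ⟨i, hi1, hi2, rfl⟩
      rw [pow_succ] at hi2
      rcases lt_trichotomy i (2 ^ r) with hi | hi | hi
      · right
        simp only [Set.mem_iUnion]
        exact ⟨i, Finset.mem_Ico.2 ⟨hi1, hi⟩, Or.inl rfl⟩
      · left
        rw [hi]
        rfl
      · right
        simp only [Set.mem_iUnion]
        refine ⟨i - 2 ^ r, Finset.mem_Ico.2 ⟨by omega, by omega⟩, Or.inr ?_⟩
        rw [show i - 2 ^ r + 2 ^ r = i by omega]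
        rfl

end Pool.Agent.LN
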