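import Pool.Agent.T9lead.LN.Circ
import Pool.Agent.T9lead.LN.Graph

/-!
# The upper bound for clique
-/

set_option autoImplicit false

namespace Pool.Agent.LN

open Finset

theorem DecidesClique.monotone {n k : ℕ} {C : Circuit (Pair n)} (hC : DecidesClique C k) :
    Monotone C.eval := by
  intro x y hxy
  by_cases h : C.eval x = true
  · have h1 := h
    rw [← edges_gr x, hC] at h1
    obtain ⟨T, hT⟩ := h1
    have h2 : C.eval y = true := by
      rw [← edges_gr y, hC]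
      refine ⟨T, ⟨?_, hT.card_eq⟩⟩
      intro a ha b hb hab
      exact gr_mono hxy (hT.isClique ha hb hab)
    rw [h, h2]
  · have h' : C.eval x = false := by simpa using h
    rw [h']
    exact Bool.false_le _

theorem upper (n k : ℕ) (C : Circuit (Pair n)) (hC : DecidesClique C k) (D r : ℕ)
    (hD : n * (n - 1) / 2 + 1 ≤ D * 2 ^ r) :
    ∃ C' : Circuit (Pair n), DecidesClique C' k ∧ C'.nots ≤ r ∧
      C'.size ≤ 40 * (n ^ 2 + 1) * (C.size + (n ^ 2 + 1) ^ 3) *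
        ∑ i ∈ range D, (n * (n - 1) / 2).choose i := by
  have hcard := card_pair n
  obtain ⟨C', h1, h2, h3⟩ := few_nots C hC.monotone D r (by rw [hcard]; exact hD)
  refine ⟨C', fun G => by rw [h1]; exact hC G, h2, h3.trans ?_⟩
  rw [hcard]
  have h4 : n * (n - 1) / 2 ≤ n ^ 2 := by
    calc n * (n - 1) / 2 ≤ n * (n - 1) := Nat.div_le_self _ _
      _ ≤ n * n := Nat.mul_le_mul_left _ (Nat.sub_le _ _)
      _ = n ^ 2 := (sq n).symm
  gcongr

theorem sum_choose_le (N D : ℕ) : ∑ i ∈ range D, N.choose i ≤ D * (N + 1) ^ D := by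
  calc ∑ i ∈ range D, N.choose i ≤ ∑ _i ∈ range D, (N + 1) ^ D := by
        apply Finset.sum_le_sum
        intro i hi
        calc N.choose i ≤ N ^ i := Nat.choose_le_pow N i
          _ ≤ (N + 1) ^ i := Nat.pow_le_pow_left (Nat.le_succ N) i
          _ ≤ (N + 1) ^ D := Nat.pow_le_pow_right (Nat.succ_pos N) (Finset.mem_range.1 hi).le
    _ = D * (N + 1) ^ D := by simp

/-- Polynomial size: a constant number of NOT gates can be saved. -/
theorem save_nots (κ : ℕ → ℕ) (a : ℕ) (h : ∃ c, ∀ n, ∃ C : Circuit (Pair n),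
      DecidesClique C (κ n) ∧ C.size ≤ n ^ c + c) :
    ∃ c, ∀ n, ∃ C : Circuit (Pair n), DecidesClique C (κ n) ∧ C.size ≤ n ^ c + c ∧
      C.nots ≤ Nat.log 2 (n * (n - 1) / 2) + 1 - a := by
  obtain ⟨c, hc⟩ := h
  set D := 2 ^ a with hD
  have hD1 : 1 ≤ D := Nat.one_le_two_pow
  set B : ℕ → ℕ := fun n => 40 * (n ^ 2 + 1) * (n ^ c + c + (n ^ 2 + 1) ^ 3) * (D * (n ^ 2 + 1) ^ D)
    with hB
  refine ⟨6 + 3 + (c + 10) + (D + 3 * D) + B 1, fun n => ?_⟩
  obtain ⟨C, hC, hs⟩ := hc n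
  set N := n * (n - 1) / 2 with hN
  have hNn : N ≤ n ^ 2 := by
    calc n * (n - 1) / 2 ≤ n * (n - 1) := Nat.div_le_self _ _
      _ ≤ n * n := Nat.mul_le_mul_left _ (Nat.sub_le _ _)
      _ = n ^ 2 := (sq n).symm
  obtain ⟨C', h1, h2, h3⟩ := upper n (κ n) C hC D (Nat.log 2 N + 1 - a) (by
    rw [← hN, hD, ← pow_add]
    have h4 : N < 2 ^ (Nat.log 2 N + 1) := Nat.lt_pow_succ_log_self (by norm_num) N
    have h5 : 2 ^ (Nat.log 2 N + 1) ≤ 2 ^ (a + (Nat.log 2 N + 1 - a)) :=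
      Nat.pow_le_pow_right (by norm_num) (by omega)
    omega)
  refine ⟨C', h1, ?_, h2⟩
  have h4 : C'.size ≤ B n := by
    refine h3.trans ?_
    rw [← hN]
    simp only [hB]
    have h5 := sum_choose_le N D
    have h6 : D * (N + 1) ^ D ≤ D * (n ^ 2 + 1) ^ D := by gcongr
    have h7 := h5.trans h6
    gcongr
  refine h4.trans ?_
  rcases Nat.lt_or_ge n 2 with hn | hn
  · have h5 : B n ≤ B 1 := by
      simp only [hB]
      have hn1 : n ≤ 1 := by omega
      gcongr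
    omega
  · have e1 : 40 ≤ n ^ 6 := by
      calc 40 ≤ 2 ^ 6 := by norm_num
        _ ≤ n ^ 6 := Nat.pow_le_pow_left hn 6
    have e2 : n ^ 2 + 1 ≤ n ^ 3 := by
      have : 1 * n ^ 2 + n ^ 2 ≤ n ^ 3 := by
        calc 1 * n ^ 2 + n ^ 2 = 2 * n ^ 2 := by ring
          _ ≤ n * n ^ 2 := Nat.mul_le_mul_right _ hn
          _ = n ^ 3 := by ring
      have h0 : 1 ≤ n ^ 2 := Nat.one_le_pow _ _ (by omega)
      omega
    have e3 : n ^ c + c + (n ^ 2 + 1) ^ 3 ≤ n ^ (c + 10) := by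
      have h0 : c ≤ n ^ c := (Nat.lt_pow_self (by omega)).le
      have h5 : (n ^ 2 + 1) ^ 3 ≤ n ^ 9 := by
        calc (n ^ 2 + 1) ^ 3 ≤ (n ^ 3) ^ 3 := Nat.pow_le_pow_left e2 3
          _ = n ^ 9 := by ring
      have h6 : n ^ c + n ^ c + n ^ 9 ≤ n ^ (c + 10) := by
        have a1 : n ^ c ≤ n ^ (c + 8) := Nat.pow_le_pow_right (by omega) (by omega)
        have a2 : n ^ 9 ≤ n ^ (c + 9) := Nat.pow_le_pow_right (by omega) (by omega)
        have a3 : 2 * n ^ (c + 8) ≤ n ^ (c + 9) := by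
          calc 2 * n ^ (c + 8) ≤ n * n ^ (c + 8) := Nat.mul_le_mul_right _ hn
            _ = n ^ (c + 9) := by ring
        have a4 : 2 * n ^ (c + 9) ≤ n ^ (c + 10) := by
          calc 2 * n ^ (c + 9) ≤ n * n ^ (c + 9) := Nat.mul_le_mul_right _ hn
            _ = n ^ (c + 10) := by ring
        omega
      omega
    have e4 : D * (n ^ 2 + 1) ^ D ≤ n ^ (D + 3 * D) := by
      calc D * (n ^ 2 + 1) ^ D ≤ n ^ D * (n ^ 3) ^ D :=
            Nat.mul_le_mul (Nat.lt_pow_self (by omega)).le (Nat.pow_le_pow_left e2 D)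
        _ = n ^ (D + 3 * D) := by rw [← pow_mul, ← pow_add]
    have e5 : B n ≤ n ^ (6 + 3 + (c + 10) + (D + 3 * D)) := by
      simp only [hB]
      calc 40 * (n ^ 2 + 1) * (n ^ c + c + (n ^ 2 + 1) ^ 3) * (D * (n ^ 2 + 1) ^ D)
          ≤ n ^ 6 * n ^ 3 * n ^ (c + 10) * n ^ (D + 3 * D) := by gcongr
        _ = n ^ (6 + 3 + (c + 10) + (D + 3 * D)) := by rw [← pow_add, ← pow_add, ← pow_add]
    have e6 : n ^ (6 + 3 + (c + 10) + (D + 3 * D)) ≤
        n ^ (6 + 3 + (c + 10) + (D + 3 * D) + B 1) :=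
      Nat.pow_le_pow_right (by omega) (by omega)
    omega

end Pool.Agent.LN
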